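import Pool.Agent.Lib_helper17.FC.Stmts2

/-!
Minimal contra pairs and the statement of their reduction to permutation graphs.
-/

set_option autoImplicit false

namespace Pool.Agent.FC

variable {V : Type}

/-- No edge of `H` is a bridge. -/
def Bridgeless (H : SimpleGraph V) : Prop := ∀ e ∈ H.edgeSet, ¬ H.IsBridge e

/-- The circuit `c` is removable: the support of the weight `w - χ_c`, which consists of all edges
of `G` except the edges of weight 1 on `c`, is bridgeless. -/
def Removable (G W : SimpleGraph V) {u : V} (c : G.Walk u u) : Prop :=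
  Bridgeless (G.deleteEdges {e | e ∈ c.edges ∧ e ∈ W.edgeSet})

/-- Minimal contra pairs (for simple cubic graphs). -/
def MinContra [DecidableEq V] (G W : SimpleGraph V) : Prop :=
  CubicPair G W ∧ Bridgeless G ∧ ¬ HasCover G W ∧
    (∀ (u : V) (c : G.Walk u u), c.IsCycle → ¬ Removable G W c) ∧
    ∀ e ∈ G.edgeSet, e ∉ W.edgeSet → HasCover (G.deleteEdges {e}) W

/-- `W` is a 2-factor with exactly two circuits and every other edge of `G` joins them. -/
def PermPair (G W : SimpleGraph V) : Prop :=
  CubicPair G W ∧ (∀ v, (W.neighborSet v).ncard = 2) ∧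
    (∃ a b, ¬ W.Reachable a b ∧ ∀ v, W.Reachable a v ∨ W.Reachable b v) ∧
    ∀ x y, G.Adj x y → ¬ W.Adj x y → ¬ W.Reachable x y

/-- The reduction. -/
def Reduction_Stmt : Prop :=
  ∀ (V : Type) [Fintype V] [DecidableEq V] (G W : SimpleGraph V), MinContra G W → PermPair G W

end Pool.Agent.FC
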