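import Mathlib

/-!
General `(1,2)`-weights on cubic graphs.  `W` is the graph formed by the edges of weight 1 (every
vertex has degree 0 or 2 in `W`), the other edges of `G` have weight 2.
-/

set_option autoImplicit false

namespace Pool.Agent.FC

variable {V : Type}

/-- The darts of the edges of weight 2. -/
abbrev MDart (G W : SimpleGraph V) := {p : V × V // G.Adj p.1 p.2 ∧ ¬ W.Adj p.1 p.2}

/-- The reversed dart. -/
def rev {G W : SimpleGraph V} (s : MDart G W) : MDart G W :=
  ⟨(s.1.2, s.1.1), s.2.1.symm, fun h => s.2.2 h.symm⟩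

/-- `ρ` is a cyclic order of the darts at every component of `W`: at a circuit of `W` it goes to
the dart at the next vertex of the circuit, at a vertex outside `W` it permutes the three darts of
that vertex cyclically. -/
def IsRot {G W : SimpleGraph V} (ρ : Equiv.Perm (MDart G W)) : Prop :=
  (∀ s, ρ s ≠ s) ∧ (∀ s, ρ (ρ s) ≠ s) ∧
  (∀ s, W.Adj s.1.1 (ρ s).1.1 ∨ ((ρ s).1.1 = s.1.1 ∧ ρ (ρ (ρ s)) = s)) ∧
  (∀ x y, W.Adj x y → ∃ s, (s.1.1 = x ∧ (ρ s).1.1 = y) ∨ (s.1.1 = y ∧ (ρ s).1.1 = x))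

/-- A faithful circuit cover: a list of closed walks that are cycles such that every edge of `W`
is in exactly one of them and every other edge of `G` in exactly two. -/
def HasCover [DecidableEq V] (G W : SimpleGraph V) : Prop :=
  ∃ L : List (Σ u : V, G.Walk u u), (∀ c ∈ L, c.2.IsCycle) ∧
    (∀ x y, W.Adj x y → L.countP (fun c => decide (s(x, y) ∈ c.2.edges)) = 1) ∧
    (∀ x y, G.Adj x y → ¬ W.Adj x y → L.countP (fun c => decide (s(x, y) ∈ c.2.edges)) = 2)

/-- `G` cubic, `W ≤ G` with all degrees 0 or 2. -/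
def CubicPair (G W : SimpleGraph V) : Prop :=
  W ≤ G ∧ (∀ v, (G.neighborSet v).ncard = 3) ∧
    ∀ v, (W.neighborSet v).ncard = 0 ∨ (W.neighborSet v).ncard = 2

/-- Graph half, general version. `α s` is the label of the strand between `ρ⁻¹ s` and `s`. -/
def GraphHalf2_Stmt : Prop :=
  ∀ (V : Type) [Fintype V] [DecidableEq V] (G W : SimpleGraph V), CubicPair G W →
    ∀ (ρ : Equiv.Perm (MDart G W)), IsRot ρ →
    ∀ (C : Type) [Fintype C] [DecidableEq C] (α : MDart G W → C),
    (∀ s, α (ρ s) ≠ α s) →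
    (∀ s, (α s = α (rev s) ∧ α (ρ s) = α (ρ (rev s))) ∨
      (α s = α (ρ (rev s)) ∧ α (ρ s) = α (rev s))) →
    HasCover G W

/-- The rotation of all `Fin (d i)`. -/
def rotAll {t : ℕ} (d : Fin t → ℕ) : Equiv.Perm (Σ i : Fin t, Fin (d i)) :=
  Equiv.sigmaCongrRight (fun i => finRotate (d i))

/-- Enumeration of the darts, component of `W` by component of `W`, in cyclic order. -/
def Enum_Stmt : Prop :=
  ∀ (V : Type) [Fintype V] [DecidableEq V] (G W : SimpleGraph V), CubicPair G W →
    ∃ (t : ℕ) (d : Fin t → ℕ) (e : (Σ i : Fin t, Fin (d i)) ≃ MDart G W),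
      IsRot (e.symm.trans ((rotAll d).trans e)) ∧
      (∀ s s' : MDart G W, (e.symm s).1 = (e.symm s').1 ↔ W.Reachable s.1.1 s'.1.1)

end Pool.Agent.FC
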