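import Mathlib

/-!
Statement of the graph half: from labels of the edges of the 2-factor that are compatible with
crossing / non-crossing transitions at the perfect matching to a faithful circuit cover.
-/

set_option autoImplicit false

namespace Pool.Agent.FC

/-- `V` = vertices of a cubic graph `G` with an oriented 2-factor `ρ` (cycles of length at least 3)
and a perfect matching `ι`. The label `α x` belongs to the edge `ρ⁻¹ x - x` of the 2-factor. -/
def GraphHalf_Stmt : Prop :=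
  ∀ (V : Type) [Fintype V] [DecidableEq V] (G : SimpleGraph V) (ρ ι : Equiv.Perm V)
    (C : Type) [Fintype C] [DecidableEq C] (α : V → C),
    (∀ x, ρ x ≠ x) → (∀ x, ρ (ρ x) ≠ x) → (∀ x, ι x ≠ x) → (∀ x, ι (ι x) = x) →
    (∀ x, ι x ≠ ρ x) →
    (∀ x y, G.Adj x y ↔ (y = ρ x ∨ x = ρ y ∨ y = ι x)) →
    (∀ x, α (ρ x) ≠ α x) →
    (∀ x, (α x = α (ι x) ∧ α (ρ x) = α (ρ (ι x))) ∨ (α x = α (ρ (ι x)) ∧ α (ρ x) = α (ι x))) →
    ∃ L : List (Σ u : V, G.Walk u u), (∀ c ∈ L, c.2.IsCycle) ∧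
      (∀ x, L.countP (fun c => decide (s(x, ρ x) ∈ c.2.edges)) = 1) ∧
      (∀ x, L.countP (fun c => decide (s(x, ι x) ∈ c.2.edges)) = 2)

end Pool.Agent.FC
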