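import Pool.Agent.Lib_helper17.FC.Gauss

/-!
Signed counts of nowhere-zero flows over `F_4`.
-/

set_option autoImplicit false

namespace Pool.Agent.FC

open Finset Matrix Polynomial

variable {E T : Type*} [Fintype E] [DecidableEq E] [Fintype T] [DecidableEq T]

/-- The bordered matrix. -/
def bmat (B : Matrix E E (ZMod 2)) (I : Matrix E T (ZMod 2)) (D : E → ZMod 2) :
    Matrix (E ⊕ T) (E ⊕ T) (ZMod 2) :=
  Matrix.fromBlocks (B + Matrix.diagonal D) I Iᵀ 0

theorem bmat_symm (B : Matrix E E (ZMod 2)) (hB : B.IsSymm) (I : Matrix E T (ZMod 2))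
    (D : E → ZMod 2) : (bmat B I D).IsSymm := by
  unfold bmat
  refine Matrix.IsSymm.fromBlocks ?_ rfl (Matrix.isSymm_zero)
  exact hB.add (Matrix.isSymm_diagonal D)

theorem mulVec_inl (B : Matrix E E (ZMod 2)) (I : Matrix E T (ZMod 2)) (D : E → ZMod 2)
    (k : E ⊕ T → ZMod 2) (e : E) :
    (bmat B I D *ᵥ k) (Sum.inl e) =
      ∑ f, B e f * k (Sum.inl f) + D e * k (Sum.inl e) + ∑ t, I e t * k (Sum.inr t) := by
  unfold bmat
  simp only [Matrix.mulVec, dotProduct, Fintype.sum_sum_type, Matrix.fromBlocks_apply₁₁,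
    Matrix.fromBlocks_apply₁₂, Matrix.add_apply, add_mul, Finset.sum_add_distrib]
  congr 2
  rw [Finset.sum_eq_single e]
  · simp
  · intro f _ hf; rw [Matrix.diagonal_apply_ne' _ hf, zero_mul]
  · intro h; exact absurd (Finset.mem_univ e) h

theorem mulVec_inr (B : Matrix E E (ZMod 2)) (I : Matrix E T (ZMod 2)) (D : E → ZMod 2)
    (k : E ⊕ T → ZMod 2) (t : T) :
    (bmat B I D *ᵥ k) (Sum.inr t) = ∑ e, I e t * k (Sum.inl e) := by
  unfold bmat
  simp [Matrix.mulVec, dotProduct, Fintype.sum_sum_type]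

/-- `D` is full: every coordinate in `E` is covered by the kernel. -/
def Full (B : Matrix E E (ZMod 2)) (I : Matrix E T (ZMod 2)) (D : E → ZMod 2) : Prop :=
  ∀ e : E, ∃ k : E ⊕ T → ZMod 2, bmat B I D *ᵥ k = 0 ∧ k (Sum.inl e) ≠ 0

theorem card_ker {m : Type*} [Fintype m] [DecidableEq m] (A : Matrix m m (ZMod 2)) :
    ∃ c : ℕ, (Finset.univ.filter (fun k : m → ZMod 2 => A *ᵥ k = 0)).card = 2 ^ c := by
  classical
  refine ⟨Module.finrank (ZMod 2) (LinearMap.ker (Matrix.mulVecLin A)), ?_⟩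
  have h1 := Module.card_eq_pow_finrank (K := ZMod 2) (V := LinearMap.ker (Matrix.mulVecLin A))
  rw [ZMod.card] at h1
  rw [← h1, ← Fintype.card_coe]
  refine Fintype.card_congr (Equiv.subtypeEquivRight ?_)
  intro k
  simp [LinearMap.mem_ker]

/-- The corank. -/
noncomputable def cork {m : Type*} [Fintype m] [DecidableEq m] (A : Matrix m m (ZMod 2)) : ℕ :=
  (card_ker A).choose

theorem cork_spec {m : Type*} [Fintype m] [DecidableEq m] (A : Matrix m m (ZMod 2)) :
    (Finset.univ.filter (fun k : m → ZMod 2 => A *ᵥ k = 0)).card = 2 ^ cork A :=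
  (card_ker A).choose_spec

/-- Inner cancellation. -/
theorem inner_zero (B : Matrix E E (ZMod 2)) (I : Matrix E T (ZMod 2))
    (hno : ∀ D, ¬ Full B I D) (r : ℕ) (k : Fin r → (E ⊕ T → ZMod 2)) :
    ∑ D : E → ZMod 2, chi (∑ e, D e) * (if ∀ j, bmat B I D *ᵥ k j = 0 then (1 : ℤ) else 0) = 0 := by
  classical
  by_cases hc : ∀ e : E, ∃ j, k j (Sum.inl e) ≠ 0
  · refine Finset.sum_eq_zero fun D _ => ?_
    rw [if_neg, mul_zero]
    intro h
    refine hno D fun e => ?_
    obtain ⟨j, hj⟩ := hc e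
    exact ⟨k j, h j, hj⟩
  · push Not at hc
    obtain ⟨e0, he0⟩ := hc
    refine Finset.sum_involution (fun D _ => D + Pi.single e0 1) ?_ ?_ ?_ ?_
    · intro D _
      have h1 : ∀ j, bmat B I (D + Pi.single e0 1) *ᵥ k j = bmat B I D *ᵥ k j := by
        intro j
        funext i
        rcases i with e | t
        · rw [mulVec_inl, mulVec_inl]
          congr 2
          by_cases h : e = e0
          · subst h; rw [he0 j]; simp
          · rw [Pi.add_apply, Pi.single_eq_of_ne h, add_zero]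
        · rw [mulVec_inr, mulVec_inr]
      simp_rw [h1]
      have h2 : ∑ e, (D + Pi.single e0 1 : E → ZMod 2) e = (∑ e, D e) + 1 := by
        simp [Finset.sum_add_distrib]
      rw [h2, chi_add, chi_one]
      ring
    · intro D _ _ h
      have := congrFun h e0
      simp at this
    · intro D _; exact Finset.mem_univ _
    · intro D _
      funext e
      by_cases h : e = e0
      · subst h
        simp only [Pi.add_apply, Pi.single_eq_same]
        generalize D e = a
        revert a; decide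
      · simp [Pi.single_eq_of_ne h]

theorem eval_pow (B : Matrix E E (ZMod 2)) (I : Matrix E T (ZMod 2))
    (hno : ∀ D, ¬ Full B I D) (r : ℕ) :
    ∑ D : E → ZMod 2, chi (∑ e, D e) * ((2 : ℤ) ^ r) ^ cork (bmat B I D) = 0 := by
  classical
  have h1 : ∀ D : E → ZMod 2, ((2 : ℤ) ^ r) ^ cork (bmat B I D) =
      ∑ k : Fin r → (E ⊕ T → ZMod 2), (if ∀ j, bmat B I D *ᵥ k j = 0 then (1 : ℤ) else 0) := by
    intro D
    rw [Finset.sum_boole]
    have h2 : (Finset.univ.filter (fun k : Fin r → (E ⊕ T → ZMod 2) =>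
        ∀ j, bmat B I D *ᵥ k j = 0)) =
        Fintype.piFinset (fun _ : Fin r =>
          Finset.univ.filter (fun k : E ⊕ T → ZMod 2 => bmat B I D *ᵥ k = 0)) := by
      ext k
      simp [Fintype.mem_piFinset]
    rw [h2, Fintype.card_piFinset_const, cork_spec]
    push_cast
    rw [← pow_mul, ← pow_mul, mul_comm]
  simp_rw [h1, Finset.mul_sum]
  rw [Finset.sum_comm]
  exact Finset.sum_eq_zero fun k _ => inner_zero B I hno r k

/-- The Penrose type polynomial vanishes identically if nothing is full. -/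
theorem eval_any (B : Matrix E E (ZMod 2)) (I : Matrix E T (ZMod 2))
    (hno : ∀ D, ¬ Full B I D) (q : ℤ) :
    ∑ D : E → ZMod 2, chi (∑ e, D e) * q ^ cork (bmat B I D) = 0 := by
  classical
  set P : Polynomial ℤ := ∑ D : E → ZMod 2, C (chi (∑ e, D e)) * X ^ cork (bmat B I D) with hP
  have heval : ∀ x : ℤ, P.eval x = ∑ D : E → ZMod 2, chi (∑ e, D e) * x ^ cork (bmat B I D) := by
    intro x
    rw [hP, Polynomial.eval_finsetSum]
    simp
  have hzero : P = 0 := by
    apply Polynomial.eq_zero_of_infinite_isRoot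
    refine Set.infinite_of_injective_forall_mem (f := fun r : ℕ => (2 : ℤ) ^ r) ?_ ?_
    · intro a b h
      exact Int.pow_right_injective (by norm_num) h
    · intro r
      show P.IsRoot _
      rw [Polynomial.IsRoot, heval]
      exact eval_pow B I hno r
  rw [← heval, hzero, Polynomial.eval_zero]

/-- Signed count. -/
theorem gauss_sum_zero (B : Matrix E E (ZMod 2)) (hB : B.IsSymm) (I : Matrix E T (ZMod 2))
    (hno : ∀ D, ¬ Full B I D) :
    ∑ D : E → ZMod 2, chi (∑ e, D e) * gauss (bmat B I D) = 0 := by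
  have h1 : ∀ D : E → ZMod 2, gauss (bmat B I D) =
      (-2) ^ Fintype.card (E ⊕ T) * (-2) ^ cork (bmat B I D) := by
    intro D
    rw [gauss_eq (bmat B I D) (bmat_symm B hB I D) _ (cork_spec _), pow_add]
  have h2 := eval_any B I hno (-2)
  calc ∑ D : E → ZMod 2, chi (∑ e, D e) * gauss (bmat B I D)
      = (-2) ^ Fintype.card (E ⊕ T) *
          ∑ D : E → ZMod 2, chi (∑ e, D e) * (-2) ^ cork (bmat B I D) := by
        rw [Finset.mul_sum]
        refine Finset.sum_congr rfl fun D _ => ?_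
        rw [h1 D]; ring
    _ = 0 := by rw [h2, mul_zero]

/-- Nowhere-zero pairs. -/
def NZ (x y : E → ZMod 2) : Prop := ∀ e, x e ≠ 0 ∨ y e ≠ 0

instance (x y : E → ZMod 2) : Decidable (NZ x y) := by unfold NZ; infer_instance

/-- `x` is a flow. -/
def IsFlow (I : Matrix E T (ZMod 2)) (x : E → ZMod 2) : Prop := ∀ t, ∑ e, I e t * x e = 0

instance (I : Matrix E T (ZMod 2)) (x : E → ZMod 2) : Decidable (IsFlow I x) := by
  unfold IsFlow; infer_instance

/-- Summation over `D`. -/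
theorem sum_D (B : Matrix E E (ZMod 2)) (hB0 : ∀ e, B e e = 0) (I : Matrix E T (ZMod 2))
    (x y : E ⊕ T → ZMod 2) :
    ∑ D : E → ZMod 2, chi (∑ e, D e) * chi (hexp (bmat B I D) x y) =
      (if NZ (fun e => x (Sum.inl e)) (fun e => y (Sum.inl e)) then 2 ^ Fintype.card E else 0) *
      (chi (∑ e, x (Sum.inl e) * ∑ f, B e f * y (Sum.inl f)) *
        chi (∑ t, (∑ e, I e t * x (Sum.inl e)) * y (Sum.inr t)) *
        chi (∑ t, (∑ e, I e t * y (Sum.inl e)) * x (Sum.inr t))) := by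
  classical
  have h1 : ∀ D : E → ZMod 2, (∑ e, D e) + hexp (bmat B I D) x y =
      (∑ e, (1 + x (Sum.inl e) + y (Sum.inl e) + x (Sum.inl e) * y (Sum.inl e)) * D e) +
      ((∑ e, x (Sum.inl e) * ∑ f, B e f * y (Sum.inl f)) +
        (∑ t, (∑ e, I e t * x (Sum.inl e)) * y (Sum.inr t)) +
        (∑ t, (∑ e, I e t * y (Sum.inl e)) * x (Sum.inr t))) := by
    intro D
    have hd1 : ∀ e : E, bmat B I D (Sum.inl e) (Sum.inl e) = D e := by
      intro e; simp [bmat, hB0 e]
    have hd2 : ∀ t : T, bmat B I D (Sum.inr t) (Sum.inr t) = 0 := by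
      intro t; simp [bmat]
    unfold hexp
    simp only [Fintype.sum_sum_type, hd1, hd2, zero_mul, Finset.sum_const_zero, add_zero,
      mulVec_inl, mulVec_inr]
    have e1 : ∑ e, x (Sum.inl e) * (∑ f, B e f * y (Sum.inl f) + D e * y (Sum.inl e) +
        ∑ t, I e t * y (Sum.inr t)) =
        (∑ e, x (Sum.inl e) * ∑ f, B e f * y (Sum.inl f)) +
        (∑ e, x (Sum.inl e) * y (Sum.inl e) * D e) +
        ∑ t, (∑ e, I e t * x (Sum.inl e)) * y (Sum.inr t) := by
      have e2 : ∑ t, (∑ e, I e t * x (Sum.inl e)) * y (Sum.inr t) =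
          ∑ e, x (Sum.inl e) * ∑ t, I e t * y (Sum.inr t) := by
        simp only [Finset.sum_mul, Finset.mul_sum]
        rw [Finset.sum_comm]
        exact Finset.sum_congr rfl fun e _ => Finset.sum_congr rfl fun t _ => by ring
      rw [e2, ← Finset.sum_add_distrib, ← Finset.sum_add_distrib]
      exact Finset.sum_congr rfl fun e _ => by ring
    have e3 : ∑ t, x (Sum.inr t) * ∑ e, I e t * y (Sum.inl e) =
        ∑ t, (∑ e, I e t * y (Sum.inl e)) * x (Sum.inr t) :=
      Finset.sum_congr rfl fun t _ => mul_comm _ _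
    have e4 : ∑ e, (1 + x (Sum.inl e) + y (Sum.inl e) + x (Sum.inl e) * y (Sum.inl e)) * D e =
        (∑ e, D e) + (∑ e, D e * x (Sum.inl e)) + (∑ e, D e * y (Sum.inl e)) +
        ∑ e, x (Sum.inl e) * y (Sum.inl e) * D e := by
      rw [← Finset.sum_add_distrib, ← Finset.sum_add_distrib, ← Finset.sum_add_distrib]
      exact Finset.sum_congr rfl fun e _ => by ring
    rw [e1, e3, e4]
    ring
  have h2 : ∀ D : E → ZMod 2, chi (∑ e, D e) * chi (hexp (bmat B I D) x y) =
      chi (∑ e, (1 + x (Sum.inl e) + y (Sum.inl e) + x (Sum.inl e) * y (Sum.inl e)) * D e) *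
      (chi (∑ e, x (Sum.inl e) * ∑ f, B e f * y (Sum.inl f)) *
        chi (∑ t, (∑ e, I e t * x (Sum.inl e)) * y (Sum.inr t)) *
        chi (∑ t, (∑ e, I e t * y (Sum.inl e)) * x (Sum.inr t))) := by
    intro D
    rw [← chi_add, h1 D, chi_add, chi_add, chi_add]
  simp_rw [h2]
  rw [← Finset.sum_mul, sum_chi_dot (fun e : E =>
    1 + x (Sum.inl e) + y (Sum.inl e) + x (Sum.inl e) * y (Sum.inl e))]
  congr 1
  have h3 : ((fun e : E => 1 + x (Sum.inl e) + y (Sum.inl e) + x (Sum.inl e) * y (Sum.inl e)) = 0) ↔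
      NZ (fun e => x (Sum.inl e)) (fun e => y (Sum.inl e)) := by
    have h4 : ∀ a b : ZMod 2, 1 + a + b + a * b = 0 ↔ (a ≠ 0 ∨ b ≠ 0) := by decide
    constructor
    · intro h e; exact (h4 _ _).1 (congrFun h e)
    · intro h; funext e; exact (h4 _ _).2 (h e)
  by_cases h : NZ (fun e => x (Sum.inl e)) (fun e => y (Sum.inl e))
  · rw [if_pos h, if_pos (h3.2 h)]
  · rw [if_neg h, if_neg (fun h' => h (h3.1 h'))]

/-- **Balance.** If no `D` is full, the signed number of nowhere-zero `Z_2²`-flows is zero. -/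
theorem balance (B : Matrix E E (ZMod 2)) (hB : B.IsSymm) (hB0 : ∀ e, B e e = 0)
    (I : Matrix E T (ZMod 2)) (hno : ∀ D, ¬ Full B I D) :
    ∑ x : E → ZMod 2, ∑ y : E → ZMod 2,
      (if NZ x y ∧ IsFlow I x ∧ IsFlow I y then chi (∑ e, x e * ∑ f, B e f * y f) else 0) = 0 := by
  classical
  have h1 := gauss_sum_zero B hB I hno
  unfold gauss at h1
  have h2 : ∑ D : E → ZMod 2, chi (∑ e, D e) *
      ∑ x : E ⊕ T → ZMod 2, ∑ y : E ⊕ T → ZMod 2, chi (hexp (bmat B I D) x y) =
      ∑ x : E ⊕ T → ZMod 2, ∑ y : E ⊕ T → ZMod 2, ∑ D : E → ZMod 2,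
        chi (∑ e, D e) * chi (hexp (bmat B I D) x y) := by
    simp_rw [Finset.mul_sum]
    rw [Finset.sum_comm]
    exact Finset.sum_congr rfl fun x _ => Finset.sum_comm
  rw [h2] at h1
  simp_rw [sum_D B hB0 I] at h1
  -- split the vectors
  have h3 : ∀ F : (E ⊕ T → ZMod 2) → (E ⊕ T → ZMod 2) → ℤ,
      ∑ x : E ⊕ T → ZMod 2, ∑ y : E ⊕ T → ZMod 2, F x y =
      ∑ x : E → ZMod 2, ∑ y : E → ZMod 2, ∑ u : T → ZMod 2, ∑ v : T → ZMod 2,
        F (Sum.elim x u) (Sum.elim y v) := by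
    intro F
    have h4 : ∀ G : (E ⊕ T → ZMod 2) → ℤ, ∑ x : E ⊕ T → ZMod 2, G x =
        ∑ x : E → ZMod 2, ∑ u : T → ZMod 2, G (Sum.elim x u) := by
      intro G
      rw [← Equiv.sum_comp (Equiv.sumArrowEquivProdArrow E T (ZMod 2)).symm G,
        Fintype.sum_prod_type]
      rfl
    rw [h4]
    refine Finset.sum_congr rfl fun x _ => ?_
    rw [← Finset.sum_comm]
    rw [h4]
    refine Finset.sum_congr rfl fun y _ => ?_
    rw [Finset.sum_comm]
  rw [h3 (fun x y => (if NZ (fun e => x (Sum.inl e)) (fun e => y (Sum.inl e)) then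
      2 ^ Fintype.card E else 0) *
      (chi (∑ e, x (Sum.inl e) * ∑ f, B e f * y (Sum.inl f)) *
        chi (∑ t, (∑ e, I e t * x (Sum.inl e)) * y (Sum.inr t)) *
        chi (∑ t, (∑ e, I e t * y (Sum.inl e)) * x (Sum.inr t))))] at h1
  simp only [Sum.elim_inl, Sum.elim_inr] at h1
  have h5 : ∀ x y : E → ZMod 2, ∑ u : T → ZMod 2, ∑ v : T → ZMod 2,
      ((if NZ (fun e => x e) (fun e => y e) then (2 : ℤ) ^ Fintype.card E else 0) *
      (chi (∑ e, x e * ∑ f, B e f * y f) *
        chi (∑ t, (∑ e, I e t * x e) * v t) *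
        chi (∑ t, (∑ e, I e t * y e) * u t))) =
      (2 ^ Fintype.card E * (2 ^ Fintype.card T * 2 ^ Fintype.card T)) *
      (if NZ x y ∧ IsFlow I x ∧ IsFlow I y then chi (∑ e, x e * ∑ f, B e f * y f) else 0) := by
    intro x y
    have e1 : ∀ u : T → ZMod 2, ∑ v : T → ZMod 2,
      ((if NZ (fun e => x e) (fun e => y e) then (2 : ℤ) ^ Fintype.card E else 0) *
      (chi (∑ e, x e * ∑ f, B e f * y f) *
        chi (∑ t, (∑ e, I e t * x e) * v t) *
        chi (∑ t, (∑ e, I e t * y e) * u t))) =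
      ((if NZ (fun e => x e) (fun e => y e) then (2 : ℤ) ^ Fintype.card E else 0) *
        chi (∑ e, x e * ∑ f, B e f * y f) *
        ∑ v : T → ZMod 2, chi (∑ t, (∑ e, I e t * x e) * v t)) *
        chi (∑ t, (∑ e, I e t * y e) * u t) := by
      intro u
      rw [Finset.mul_sum, Finset.sum_mul]
      exact Finset.sum_congr rfl fun v _ => by ring
    simp_rw [e1]
    rw [← Finset.mul_sum, sum_chi_dot (fun t => ∑ e, I e t * x e),
      sum_chi_dot (fun t => ∑ e, I e t * y e)]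
    have f1 : ((fun t => ∑ e, I e t * x e) = 0) ↔ IsFlow I x :=
      ⟨fun h t => congrFun h t, fun h => funext h⟩
    have f2 : ((fun t => ∑ e, I e t * y e) = 0) ↔ IsFlow I y :=
      ⟨fun h t => congrFun h t, fun h => funext h⟩
    simp only [f1, f2]
    by_cases g1 : NZ x y
    · by_cases g2 : IsFlow I x
      · by_cases g3 : IsFlow I y
        · simp only [g1, g2, g3, if_true, and_self]; ring
        · simp [g1, g2, g3]
      · simp [g1, g2]
    · have g1' : ¬ NZ (fun e => x e) (fun e => y e) := g1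
      simp [g1]
  have h6 : ∑ x : E → ZMod 2, ∑ y : E → ZMod 2,
      ((2 : ℤ) ^ Fintype.card E * (2 ^ Fintype.card T * 2 ^ Fintype.card T)) *
      (if NZ x y ∧ IsFlow I x ∧ IsFlow I y then chi (∑ e, x e * ∑ f, B e f * y f) else 0) = 0 := by
    refine Eq.trans ?_ h1
    exact Finset.sum_congr rfl fun x _ => Finset.sum_congr rfl fun y _ => (h5 x y).symm
  have h7 : ∑ x : E → ZMod 2, ∑ y : E → ZMod 2,
      ((2 : ℤ) ^ Fintype.card E * (2 ^ Fintype.card T * 2 ^ Fintype.card T)) *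
      (if NZ x y ∧ IsFlow I x ∧ IsFlow I y then chi (∑ e, x e * ∑ f, B e f * y f) else 0) =
      ((2 : ℤ) ^ Fintype.card E * (2 ^ Fintype.card T * 2 ^ Fintype.card T)) *
      ∑ x : E → ZMod 2, ∑ y : E → ZMod 2,
      (if NZ x y ∧ IsFlow I x ∧ IsFlow I y then chi (∑ e, x e * ∑ f, B e f * y f) else 0) := by
    rw [Finset.mul_sum]
    exact Finset.sum_congr rfl fun x _ => (Finset.mul_sum _ _ _).symm
  rw [h7] at h6
  rcases mul_eq_zero.1 h6 with h | h
  · exact absurd h (by positivity)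
  · exact h

end Pool.Agent.FC
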