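import Pool.Agent.Lib_helper17.FC.Twelve

/-!
Number of zero-sum nowhere-zero functions with values in `Z_2²`.
-/

set_option autoImplicit false

namespace Pool.Agent.FC

open Finset Matrix

variable {E : Type*} [Fintype E] [DecidableEq E]

theorem chi_mul_sum (u : ZMod 2) (x : E → ZMod 2) :
    chi (u * ∑ e, x e) = ∏ e, chi (u * x e) := by
  rw [Finset.mul_sum, chi_sum]

theorem sum_NZ (u v : ZMod 2) :
    ∑ q : (E → ZMod 2) × (E → ZMod 2), (if NZ q.1 q.2 then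
      chi (u * ∑ e, q.1 e) * chi (v * ∑ e, q.2 e) else 0) =
    (if u = 0 ∧ v = 0 then (3 : ℤ) else -1) ^ Fintype.card E := by
  classical
  set F : ZMod 2 × ZMod 2 → ℤ := fun a =>
    if a.1 ≠ 0 ∨ a.2 ≠ 0 then chi (u * a.1) * chi (v * a.2) else 0 with hF
  have h1 : ∀ g : E → ZMod 2 × ZMod 2, (if NZ (fun e => (g e).1) (fun e => (g e).2) then
      chi (u * ∑ e, (g e).1) * chi (v * ∑ e, (g e).2) else 0) = ∏ e, F (g e) := by
    intro g
    by_cases h : NZ (fun e => (g e).1) (fun e => (g e).2)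
    · rw [if_pos h, chi_mul_sum, chi_mul_sum, ← Finset.prod_mul_distrib]
      refine Finset.prod_congr rfl fun e _ => ?_
      rw [hF]
      exact (if_pos (h e)).symm
    · rw [if_neg h]
      unfold NZ at h
      push Not at h
      obtain ⟨e, he⟩ := h
      symm
      refine Finset.prod_eq_zero (Finset.mem_univ e) ?_
      rw [hF]
      refine if_neg ?_
      push Not
      exact he
  have h2 : ∑ q : (E → ZMod 2) × (E → ZMod 2), (if NZ q.1 q.2 then
      chi (u * ∑ e, q.1 e) * chi (v * ∑ e, q.2 e) else 0) =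
      ∑ g : E → ZMod 2 × ZMod 2, ∏ e, F (g e) := by
    rw [← Equiv.sum_comp (Equiv.arrowProdEquivProdArrow E (fun _ => ZMod 2) (fun _ => ZMod 2))]
    exact Finset.sum_congr rfl fun g _ => h1 g
  rw [h2]
  have h3 : ∑ g : E → ZMod 2 × ZMod 2, ∏ e, F (g e) = ∏ _e : E, ∑ a, F a := by
    rw [Finset.prod_univ_sum]
    simp
  rw [h3, Finset.prod_const, Finset.card_univ]
  congr 1
  have h4 : ∀ u v : ZMod 2, ∑ a : ZMod 2 × ZMod 2,
      (if a.1 ≠ 0 ∨ a.2 ≠ 0 then chi (u * a.1) * chi (v * a.2) else 0) =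
      if u = 0 ∧ v = 0 then (3 : ℤ) else -1 := by decide
  exact h4 u v

theorem count_pairs (P : Finset ((E → ZMod 2) × (E → ZMod 2)))
    (hP : ∀ q, q ∈ P ↔ NZ q.1 q.2 ∧ ∑ e, q.1 e = 0 ∧ ∑ e, q.2 e = 0) :
    4 * (P.card : ℤ) = 3 ^ Fintype.card E + 3 * (-1) ^ Fintype.card E := by
  classical
  have h1 : ∀ q : (E → ZMod 2) × (E → ZMod 2), (4 : ℤ) * (if q ∈ P then 1 else 0) =
      ∑ u : ZMod 2, ∑ v : ZMod 2, (if NZ q.1 q.2 then
        chi (u * ∑ e, q.1 e) * chi (v * ∑ e, q.2 e) else 0) := by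
    intro q
    have key : ∀ a b : ZMod 2, ∑ u : ZMod 2, ∑ v : ZMod 2, chi (u * a) * chi (v * b) =
        if a = 0 ∧ b = 0 then 4 else 0 := by decide
    by_cases h : NZ q.1 q.2
    · simp only [h, if_true]
      rw [key]
      by_cases h' : ∑ e, q.1 e = 0 ∧ ∑ e, q.2 e = 0
      · rw [if_pos ((hP q).2 ⟨h, h'⟩), if_pos h']; rfl
      · rw [if_neg (fun h'' => h' ((hP q).1 h'').2), if_neg h']; rfl
    · rw [if_neg (fun h'' => h ((hP q).1 h'').1)]
      simp [h]
  have h2 : (P.card : ℤ) = ∑ q : (E → ZMod 2) × (E → ZMod 2), (if q ∈ P then 1 else 0) := by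
    simp
  rw [h2, Finset.mul_sum, Finset.sum_congr rfl (fun q _ => h1 q), Finset.sum_comm]
  have h3 : ∀ u : ZMod 2, ∑ q : (E → ZMod 2) × (E → ZMod 2), ∑ v : ZMod 2,
      (if NZ q.1 q.2 then chi (u * ∑ e, q.1 e) * chi (v * ∑ e, q.2 e) else 0) =
      ∑ v : ZMod 2, (if u = 0 ∧ v = 0 then (3 : ℤ) else -1) ^ Fintype.card E := by
    intro u
    rw [Finset.sum_comm]
    exact Finset.sum_congr rfl fun v _ => sum_NZ u v
  rw [Finset.sum_congr rfl (fun u _ => h3 u)]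
  have h4 : (Finset.univ : Finset (ZMod 2)) = {0, 1} := rfl
  rw [h4]
  simp
  ring

/-- Arithmetic. -/
theorem mod_four (n N : ℕ) (h : 4 * (N : ℤ) = 3 ^ n + 3 * (-1) ^ n) (h12 : 12 ∣ N) :
    n % 4 = 1 := by
  obtain ⟨k, rfl⟩ := h12
  -- work modulo 16
  have h1 : ((3 : ZMod 16)) ^ n + 3 * (-1) ^ n = 0 := by
    have h2 := congrArg (fun z : ℤ => (z : ZMod 16)) h
    push_cast at h2
    rw [← h2]
    have h3 : (4 : ZMod 16) * (12 * (k : ZMod 16)) = (48 : ZMod 16) * k := by ring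
    rw [h3]
    have h4 : (48 : ZMod 16) = 0 := by decide
    rw [h4, zero_mul]
  obtain ⟨m, r, hr, hn⟩ : ∃ m r, r < 4 ∧ n = 4 * m + r := ⟨n / 4, n % 4, Nat.mod_lt _ (by norm_num),
    (Nat.div_add_mod n 4).symm⟩
  have h3 : (3 : ZMod 16) ^ (4 * m) = 1 := by
    rw [pow_mul]
    have : (3 : ZMod 16) ^ 4 = 1 := by decide
    rw [this, one_pow]
  have h4 : (-1 : ZMod 16) ^ (4 * m) = 1 := by
    rw [pow_mul]
    have : (-1 : ZMod 16) ^ 4 = 1 := by decide
    rw [this, one_pow]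
  rw [hn, pow_add, pow_add, h3, h4, one_mul, one_mul] at h1
  have hr1 : r = 1 := by
    interval_cases r
    · exact absurd h1 (by decide)
    · rfl
    · exact absurd h1 (by decide)
    · exact absurd h1 (by decide)
  omega

end Pool.Agent.FC
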