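import Pool.Agent.Lib_helper17.FC.Linear
import Pool.Agent.Lib_helper63.FC.Graph2
import Pool.Agent.Lib_helper63.FC.Enum

/-!
From the algebra to graphs: flows of the contracted graph.
-/

set_option autoImplicit false

namespace Pool.Agent.FC

open Finset Matrix

section Defs

variable {V : Type} {G W : SimpleGraph V}

/-- The edge of a dart. -/
def MDart.edge (s : MDart G W) : Sym2 V := s(s.1.1, s.1.2)

open scoped Classical in
/-- `φ` is a nowhere-zero `Z_2²`-flow of `G / W` : it is nonzero exactly on the edges of `G`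
which are not in `W`, and its values sum to zero over the edges leaving each component of `W`. -/
def NZFlow [Fintype V] (G W : SimpleGraph V) (φ : Sym2 V → ZMod 2 × ZMod 2) : Prop :=
  (∀ a, φ a ≠ 0 ↔ a ∈ G.edgeSet ∧ a ∉ W.edgeSet) ∧
    ∀ v, ∑ x with W.Reachable v x, ∑ y, φ s(x, y) = 0

/-- An enumeration of the darts component by component, in cyclic order in each component. -/
def IsEnum {t : ℕ} {d : Fin t → ℕ} (e : Slot d ≃ MDart G W) : Prop :=
  IsRot (e.symm.trans ((rotAll d).trans e)) ∧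
    ∀ s s' : MDart G W, (e.symm s).1 = (e.symm s').1 ↔ W.Reachable s.1.1 s'.1.1

/-- Crossing pairs of edges with different values. -/
def CrossPair {t : ℕ} {d : Fin t → ℕ} (e : Slot d ≃ MDart G W)
    (φ : Sym2 V → ZMod 2 × ZMod 2) (p : MDart G W × MDart G W) : Prop :=
  prec (e.symm p.1) (e.symm p.2) ∧ prec (e.symm p.2) (e.symm (rev p.1)) ∧
    prec (e.symm (rev p.1)) (e.symm (rev p.2)) ∧ φ p.1.edge ≠ φ p.2.edge

/-- Number of crossings of edges with different values. -/
noncomputable def crossings {t : ℕ} {d : Fin t → ℕ} (e : Slot d ≃ MDart G W)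
    (φ : Sym2 V → ZMod 2 × ZMod 2) : ℕ := Nat.card {p : MDart G W × MDart G W // CrossPair e φ p}

end Defs

section Prec

variable {t : ℕ} {d : Fin t → ℕ}

theorem prec_trans {u v w : Slot d} (h1 : prec u v) (h2 : prec v w) : prec u w := by
  rcases h1 with h1 | ⟨h1, h1'⟩
  · rcases h2 with h2 | ⟨h2, _⟩
    · exact Or.inl (h1.trans h2)
    · exact Or.inl (h2 ▸ h1)
  · rcases h2 with h2 | ⟨h2, h2'⟩
    · exact Or.inl (h1 ▸ h2)
    · exact Or.inr ⟨h1.trans h2, h1'.trans h2'⟩

theorem prec_asymm {u v : Slot d} (h1 : prec u v) : ¬ prec v u := fun h2 =>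
  prec_irrefl u (prec_trans h1 h2)

variable (τ : Slot d → Slot d)

/-- The interlace matrix in terms of crossings. -/
theorem Bm_cross (hτ : ∀ s, τ (τ s) = s) (hτ' : ∀ s, τ s ≠ s) (e f : Chord τ)
    (h : prec e.1 f.1) :
    Bm τ e f = if prec f.1 (τ e.1) ∧ prec (τ e.1) (τ f.1) then 1 else 0 := by
  have he := e.2
  have hf := f.2
  have hef : e ≠ f := by
    rintro rfl; exact prec_irrefl _ h
  have h1 : bp f.1 e.1 = 0 := if_neg (prec_asymm h)
  have h2 : bp (τ f.1) e.1 = 0 := if_neg (prec_asymm (prec_trans h hf))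
  unfold Bm
  rw [if_neg hef, h1, h2, zero_add, add_zero, add_zero]
  have hne : τ e.1 ≠ τ f.1 := fun h' => hef (Subtype.ext (by rw [← hτ e.1, h', hτ]))
  by_cases c1 : prec f.1 (τ e.1)
  · by_cases c2 : prec (τ e.1) (τ f.1)
    · rw [if_pos ⟨c1, c2⟩]
      have : bp (τ f.1) (τ e.1) = 0 := if_neg (prec_asymm c2)
      rw [this, add_zero]; exact if_pos c1
    · rw [if_neg (fun h' => c2 h'.2)]
      have h3 : bp f.1 (τ e.1) = 1 := if_pos c1
      have h4 : bp (τ f.1) (τ e.1) = 1 := by
        rcases prec_or _ _ hne with h5 | h5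
        · exact absurd h5.1 c2
        · exact if_pos h5.2
      rw [h3, h4]; decide
  · rw [if_neg (fun h' => c1 h'.1)]
    have h3 : bp f.1 (τ e.1) = 0 := if_neg c1
    have h4 : bp (τ f.1) (τ e.1) = 0 := by
      refine if_neg fun h' => c1 (prec_trans hf h')
    rw [h3, h4]; decide

theorem chord_ne (hτ : ∀ s, τ (τ s) = s) (e f : Chord τ) (h : e ≠ f) : e.1 ≠ f.1 :=
  fun h' => h (Subtype.ext h')

/-- The form as a sum over crossing pairs. -/
theorem hB_cross (hτ : ∀ s, τ (τ s) = s) (hτ' : ∀ s, τ s ≠ s) (x y : Chord τ → ZMod 2) :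
    hB (Matrix.of (Bm τ)) x y = ∑ e : Chord τ, ∑ f : Chord τ,
      if prec e.1 f.1 ∧ prec f.1 (τ e.1) ∧ prec (τ e.1) (τ f.1) then
        x e * y f + x f * y e else 0 := by
  classical
  have hs := Bm_symm τ hτ hτ'
  have hsym : ∀ e f, Bm τ e f = Bm τ f e := fun e f => by
    have := hs.apply e f
    simpa using this.symm
  have h1 : hB (Matrix.of (Bm τ)) x y = ∑ e : Chord τ, ∑ f : Chord τ, Bm τ e f * (x e * y f) := by
    unfold hB
    refine Finset.sum_congr rfl fun e _ => ?_
    rw [Finset.mul_sum]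
    exact Finset.sum_congr rfl fun f _ => by rw [Matrix.of_apply]; ring
  have h2 : ∀ e f : Chord τ, Bm τ e f * (x e * y f) =
      (if prec e.1 f.1 then Bm τ e f * (x e * y f) else 0) +
      (if prec f.1 e.1 then Bm τ e f * (x e * y f) else 0) := by
    intro e f
    by_cases hef : e = f
    · subst hef
      rw [Bm_diag τ hτ']; simp
    · rcases prec_or e.1 f.1 (chord_ne τ hτ e f hef) with h | h
      · rw [if_pos h.1, if_neg h.2, add_zero]
      · rw [if_neg h.1, if_pos h.2, zero_add]
  have h3 : ∑ e : Chord τ, ∑ f : Chord τ, (if prec f.1 e.1 then Bm τ e f * (x e * y f) else 0) =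
      ∑ e : Chord τ, ∑ f : Chord τ, (if prec e.1 f.1 then Bm τ e f * (x f * y e) else 0) := by
    rw [Finset.sum_comm]
    refine Finset.sum_congr rfl fun e _ => Finset.sum_congr rfl fun f _ => ?_
    rw [hsym f e]
  rw [h1, Finset.sum_congr rfl (fun e _ => Finset.sum_congr rfl (fun f _ => h2 e f))]
  simp only [Finset.sum_add_distrib]
  rw [h3, ← Finset.sum_add_distrib]
  refine Finset.sum_congr rfl fun e _ => ?_
  rw [← Finset.sum_add_distrib]
  refine Finset.sum_congr rfl fun f _ => ?_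
  by_cases h : prec e.1 f.1
  · rw [if_pos h, if_pos h, Bm_cross τ hτ hτ' e f h]
    by_cases h' : prec f.1 (τ e.1) ∧ prec (τ e.1) (τ f.1)
    · rw [if_pos h', if_pos ⟨h, h'⟩]; ring
    · rw [if_neg h', if_neg (fun h'' => h' h''.2)]; ring
  · rw [if_neg h, if_neg h, if_neg (fun h'' => h h''.1), add_zero]

theorem chi_natCast (n : ℕ) : chi (n : ZMod 2) = (-1) ^ n := by
  induction n with
  | zero => simp [chi_zero]
  | succ n ih => rw [Nat.cast_succ, chi_add, ih, chi_one, pow_succ]

/-- The sign in terms of crossings of chords. -/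
theorem chi_hB (hτ : ∀ s, τ (τ s) = s) (hτ' : ∀ s, τ s ≠ s) (x y : Chord τ → ZMod 2)
    (hxy : NZ x y) :
    chi (hB (Matrix.of (Bm τ)) x y) = (-1) ^ (Finset.univ.filter
      (fun p : Chord τ × Chord τ => prec p.1.1 p.2.1 ∧ prec p.2.1 (τ p.1.1) ∧
        prec (τ p.1.1) (τ p.2.1) ∧ ¬ (x p.1 = x p.2 ∧ y p.1 = y p.2))).card := by
  classical
  rw [← chi_natCast, hB_cross τ hτ hτ', Finset.card_filter, ← Finset.univ_product_univ,
    Finset.sum_product]
  push_cast
  congr 1
  refine Finset.sum_congr rfl fun e _ => Finset.sum_congr rfl fun f _ => ?_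
  have key : ∀ a b a' b' : ZMod 2, (a ≠ 0 ∨ b ≠ 0) → (a' ≠ 0 ∨ b' ≠ 0) →
      a * b' + a' * b = if ¬ (a = a' ∧ b = b') then 1 else 0 := by decide
  by_cases h : prec e.1 f.1 ∧ prec f.1 (τ e.1) ∧ prec (τ e.1) (τ f.1)
  · rw [if_pos h, key _ _ _ _ (hxy e) (hxy f)]
    by_cases h' : ¬ (x e = x f ∧ y e = y f)
    · rw [if_pos h', if_pos ⟨h.1, h.2.1, h.2.2, h'⟩]
    · rw [if_neg h', if_neg (fun h'' => h' h''.2.2.2)]
  · rw [if_neg h, if_neg (fun h'' => h ⟨h''.1, h''.2.1, h''.2.2.1⟩)]

end Prec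

section Main

variable {V : Type} [Fintype V] [DecidableEq V] {G W : SimpleGraph V}

theorem rev_rev (s : MDart G W) : rev (rev s) = s := rfl

theorem rev_ne (s : MDart G W) : rev s ≠ s := by
  intro h
  have h1 : s.1.2 = s.1.1 := congrArg (fun z => z.1.1) h
  exact s.2.1.ne h1.symm

theorem edge_rev (s : MDart G W) : (rev s).edge = s.edge := Sym2.eq_swap

theorem edge_eq (s s' : MDart G W) (h : s.edge = s'.edge) : s = s' ∨ s = rev s' := by
  unfold MDart.edge at h
  rcases Sym2.eq_iff.1 h with h | h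
  · exact Or.inl (Subtype.ext (Prod.ext h.1 h.2))
  · exact Or.inr (Subtype.ext (Prod.ext h.1 h.2))

variable {t : ℕ} {d : Fin t → ℕ} (e : Slot d ≃ MDart G W)

/-- The involution of the slots. -/
def tau (s : Slot d) : Slot d := e.symm (rev (e s))

theorem tau_tau (s : Slot d) : tau e (tau e s) = s := by
  unfold tau
  rw [Equiv.apply_symm_apply, rev_rev, Equiv.symm_apply_apply]

theorem tau_ne (s : Slot d) : tau e s ≠ s := by
  intro h
  unfold tau at h
  rw [Equiv.symm_apply_eq] at h
  exact rev_ne _ h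

omit [Fintype V] in
/-- A full `D` gives a cover. -/
theorem cover_of_full [Fintype V] (hc : CubicPair G W)
    (he : IsRot (e.symm.trans ((rotAll d).trans e)))
    (D : Chord (tau e) → ZMod 2)
    (hD : Full (Matrix.of (Bm (tau e))) (Matrix.of (Im (tau e))) D) : HasCover G W := by
  obtain ⟨C, _, _, α, h1, h2⟩ := labels (tau e) (tau_tau e) (tau_ne e) D hD
  refine graphHalf2 V G W hc _ he C (fun s => α (e.symm s)) ?_ ?_
  · intro s
    have := h1 (e.symm s)
    simpa using this
  · intro s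
    have := h2 (e.symm s)
    simpa [tau] using this

/-- The value of `φ` on the slots. -/
def slotVal (φ : Sym2 V → ZMod 2 × ZMod 2) (u : Slot d) : ZMod 2 × ZMod 2 := φ (e u).edge

theorem slotVal_tau (φ : Sym2 V → ZMod 2 × ZMod 2) (u : Slot d) :
    slotVal e φ (tau e u) = slotVal e φ u := by
  unfold slotVal tau
  rw [Equiv.apply_symm_apply, edge_rev]

/-- Each vertex has a dart. -/
theorem exists_dart (hc : CubicPair G W) (v : V) : ∃ s : MDart G W, s.1.1 = v := by
  classical
  obtain ⟨h1, h2, h3⟩ := hc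
  by_contra hno
  push Not at hno
  have h4 : G.neighborSet v ⊆ W.neighborSet v := by
    intro w hw
    by_contra hw'
    exact hno ⟨(v, w), hw, hw'⟩ rfl
  have h5 := Set.ncard_le_ncard h4 (Set.toFinite _)
  rw [h2 v] at h5
  rcases h3 v with h | h
  · rw [h] at h5; omega
  · rw [h] at h5; omega

open scoped Classical in
/-- The sums over the edges at a component of `W`. -/
theorem sum_component (φ : Sym2 V → ZMod 2 × ZMod 2)
    (hφ : ∀ a, φ a ≠ 0 ↔ a ∈ G.edgeSet ∧ a ∉ W.edgeSet) (v : V) :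
    ∑ x with W.Reachable v x, ∑ y, φ s(x, y) =
      ∑ u : Slot d, if W.Reachable v (e u).1.1 then slotVal e φ u else 0 := by
  have h1 : ∑ u : Slot d, (if W.Reachable v (e u).1.1 then slotVal e φ u else 0) =
      ∑ s : MDart G W, (if W.Reachable v s.1.1 then φ s.edge else 0) :=
    Equiv.sum_comp e (fun s : MDart G W => if W.Reachable v s.1.1 then φ s.edge else 0)
  have h2 : ∑ s : MDart G W, (if W.Reachable v s.1.1 then φ s.edge else 0) =
      ∑ p : V × V with (G.Adj p.1 p.2 ∧ ¬ W.Adj p.1 p.2),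
        (if W.Reachable v p.1 then φ s(p.1, p.2) else 0) := by
    rw [← Finset.sum_subtype_eq_sum_filter, Finset.subtype_univ]
    rfl
  have h3 : ∑ p : V × V with (G.Adj p.1 p.2 ∧ ¬ W.Adj p.1 p.2),
        (if W.Reachable v p.1 then φ s(p.1, p.2) else 0) =
      ∑ p : V × V, (if W.Reachable v p.1 then φ s(p.1, p.2) else 0) := by
    refine Finset.sum_subset (Finset.subset_univ _) fun p _ hp => ?_
    rw [Finset.mem_filter] at hp
    have h4 : φ s(p.1, p.2) = 0 := by
      by_contra h5
      exact hp ⟨Finset.mem_univ _, (hφ _).1 h5⟩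
    rw [h4, ite_self]
  rw [h1, h2, h3, ← Finset.univ_product_univ, Finset.sum_product, Finset.sum_filter]
  refine Finset.sum_congr rfl fun x _ => ?_
  by_cases h : W.Reachable v x
  · rw [if_pos h]
    exact Finset.sum_congr rfl fun y _ => by rw [if_pos h]
  · rw [if_neg h]
    rw [Finset.sum_eq_zero]
    intro y _; rw [if_neg h]

/-- The two coordinates of `φ` on the chords. -/
def toPair (φ : Sym2 V → ZMod 2 × ZMod 2) :
    (Chord (tau e) → ZMod 2) × (Chord (tau e) → ZMod 2) :=
  (fun f => (slotVal e φ f.1).1, fun f => (slotVal e φ f.1).2)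

/-- Two chords with the same edge are equal. -/
theorem chord_edge_inj (f g : Chord (tau e)) (h : (e f.1).edge = (e g.1).edge) : f = g := by
  rcases edge_eq _ _ h with h | h
  · exact Subtype.ext (e.injective h)
  · exfalso
    have h1 : f.1 = tau e g.1 := by
      unfold tau; rw [← h, Equiv.symm_apply_apply]
    have h2 := f.2
    rw [h1, tau_tau] at h2
    exact prec_asymm g.2 h2

/-- Each edge outside `W` comes from a chord. -/
theorem exists_chord_edge (a : Sym2 V) (ha : a ∈ G.edgeSet ∧ a ∉ W.edgeSet) :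
    ∃ f : Chord (tau e), (e f.1).edge = a := by
  induction a using Sym2.ind with
  | _ x y =>
    set s : MDart G W := ⟨(x, y), ha.1, ha.2⟩ with hs
    obtain ⟨f, hf | hf⟩ := exists_chord (tau e) (tau_tau e) (tau_ne e) (e.symm s)
    · exact ⟨f, by rw [← hf, Equiv.apply_symm_apply]; rfl⟩
    · refine ⟨f, ?_⟩
      have h1 : (e (tau e f.1)).edge = (e f.1).edge := by
        unfold tau
        rw [Equiv.apply_symm_apply, edge_rev]
      rw [← h1, ← hf, Equiv.apply_symm_apply]; rfl

theorem edge_mem (s : MDart G W) : s.edge ∈ G.edgeSet ∧ s.edge ∉ W.edgeSet := s.2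

theorem flow_iff (hc : CubicPair G W) (he : IsEnum e) (φ : Sym2 V → ZMod 2 × ZMod 2)
    (hφ : ∀ a, φ a ≠ 0 ↔ a ∈ G.edgeSet ∧ a ∉ W.edgeSet) :
    NZFlow G W φ ↔ IsFlow (Matrix.of (Im (tau e))) (toPair e φ).1 ∧
      IsFlow (Matrix.of (Im (tau e))) (toPair e φ).2 := by
  classical
  -- the component sums
  have key : ∀ i : Fin t, ∀ u0 : Slot d, u0.1 = i →
      ((∑ x with W.Reachable (e u0).1.1 x, ∑ y, φ s(x, y) = 0) ↔
        (∑ f, Im (tau e) f i * (toPair e φ).1 f = 0 ∧
          ∑ f, Im (tau e) f i * (toPair e φ).2 f = 0)) := by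
    intro i u0 hu0
    have h1 := sum_component e φ hφ (e u0).1.1
    have h2 : ∑ u : Slot d, (if W.Reachable (e u0).1.1 (e u).1.1 then slotVal e φ u else 0) =
        ∑ u : Slot d, if u.1 = i then slotVal e φ u else 0 := by
      refine Finset.sum_congr rfl fun u _ => ?_
      have h3 := he.2 (e u0) (e u)
      rw [Equiv.symm_apply_apply, Equiv.symm_apply_apply, hu0] at h3
      by_cases h : u.1 = i
      · rw [if_pos h, if_pos (h3.1 h.symm)]
      · rw [if_neg h, if_neg (fun h' => h (h3.2 h').symm)]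
    have h4 : (∑ u : Slot d, if u.1 = i then slotVal e φ u else 0).1 =
        ∑ f, Im (tau e) f i * (toPair e φ).1 f := by
      rw [Prod.fst_sum, sum_slots (tau e) (tau_tau e) (tau_ne e)]
      refine Finset.sum_congr rfl fun f _ => ?_
      rw [slotVal_tau]
      unfold Im toPair
      by_cases c1 : f.1.1 = i <;> by_cases c2 : (tau e f.1).1 = i <;> simp [c1, c2]
      ring
    have h5 : (∑ u : Slot d, if u.1 = i then slotVal e φ u else 0).2 =
        ∑ f, Im (tau e) f i * (toPair e φ).2 f := by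
      rw [Prod.snd_sum, sum_slots (tau e) (tau_tau e) (tau_ne e)]
      refine Finset.sum_congr rfl fun f _ => ?_
      rw [slotVal_tau]
      unfold Im toPair
      by_cases c1 : f.1.1 = i <;> by_cases c2 : (tau e f.1).1 = i <;> simp [c1, c2]
      ring
    rw [h1, h2, ← h4, ← h5]
    exact Prod.ext_iff
  constructor
  · intro h
    have h6 : ∀ i : Fin t, (∑ f, Im (tau e) f i * (toPair e φ).1 f = 0 ∧
          ∑ f, Im (tau e) f i * (toPair e φ).2 f = 0) := by
      intro i
      by_cases hi : ∃ u0 : Slot d, u0.1 = i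
      · obtain ⟨u0, hu0⟩ := hi
        refine (key i u0 hu0).1 ?_
        convert h.2 _
      · push Not at hi
        have h7 : ∀ f, Im (tau e) f i = 0 := by
          intro f
          unfold Im
          rw [if_neg (hi _), if_neg (hi _), add_zero]
        simp [h7]
    exact ⟨fun i => (h6 i).1, fun i => (h6 i).2⟩
  · rintro ⟨h1, h2⟩
    refine ⟨hφ, fun v => ?_⟩
    obtain ⟨s, hs⟩ := exists_dart hc v
    have h3 := (key (e.symm s).1 (e.symm s) rfl).2 ⟨h1 _, h2 _⟩
    rw [Equiv.apply_symm_apply, hs] at h3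
    convert h3

open scoped Classical in
/-- Sums over flows as sums over pairs. -/
theorem sum_flows (hc : CubicPair G W) (he : IsEnum e)
    (F : (Chord (tau e) → ZMod 2) × (Chord (tau e) → ZMod 2) → ℤ) :
    ∑ φ with NZFlow G W φ, F (toPair e φ) = ∑ q ∈ flowPairs (Matrix.of (Im (tau e))), F q := by
  refine Finset.sum_bij (fun φ _ => toPair e φ) ?_ ?_ ?_ ?_
  · intro φ hφ
    rw [Finset.mem_filter] at hφ
    have h1 := (flow_iff e hc he φ hφ.2.1).1 hφ.2
    rw [mem_flowPairs]
    refine ⟨?_, h1⟩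
    intro f
    have h2 : φ (e f.1).edge ≠ 0 := (hφ.2.1 _).2 (edge_mem _)
    by_contra h3
    push Not at h3
    exact h2 (Prod.ext h3.1 h3.2)
  · intro φ hφ ψ hψ h
    rw [Finset.mem_filter] at hφ hψ
    funext a
    by_cases ha : a ∈ G.edgeSet ∧ a ∉ W.edgeSet
    · obtain ⟨f, hf⟩ := exists_chord_edge e a ha
      have h1 := congrFun (congrArg Prod.fst h) f
      have h2 := congrFun (congrArg Prod.snd h) f
      rw [← hf]
      exact Prod.ext h1 h2
    · have h1 : φ a = 0 := by
        by_contra h; exact ha ((hφ.2.1 a).1 h)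
      have h2 : ψ a = 0 := by
        by_contra h; exact ha ((hψ.2.1 a).1 h)
      rw [h1, h2]
  · intro q hq
    rw [mem_flowPairs] at hq
    let φ : Sym2 V → ZMod 2 × ZMod 2 := fun a =>
      if h : ∃ f : Chord (tau e), (e f.1).edge = a then (q.1 h.choose, q.2 h.choose) else 0
    have h1 : ∀ f : Chord (tau e), φ (e f.1).edge = (q.1 f, q.2 f) := by
      intro f
      have h : ∃ g : Chord (tau e), (e g.1).edge = (e f.1).edge := ⟨f, rfl⟩
      have h2 : φ (e f.1).edge = (q.1 h.choose, q.2 h.choose) := dif_pos h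
      have h3 : h.choose = f := chord_edge_inj e _ _ h.choose_spec
      rw [h2, h3]
    have h2 : ∀ a, φ a ≠ 0 ↔ a ∈ G.edgeSet ∧ a ∉ W.edgeSet := by
      intro a
      constructor
      · intro h
        by_cases h3 : ∃ f : Chord (tau e), (e f.1).edge = a
        · obtain ⟨f, rfl⟩ := h3
          exact edge_mem _
        · exact absurd (dif_neg h3) h
      · intro ha
        obtain ⟨f, rfl⟩ := exists_chord_edge e a ha
        rw [h1]
        intro h
        rcases hq.1 f with h3 | h3
        · exact h3 (congrArg Prod.fst h)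
        · exact h3 (congrArg Prod.snd h)
    have h3 : toPair e φ = q := by
      refine Prod.ext ?_ ?_
      · funext f; exact congrArg Prod.fst (h1 f)
      · funext f; exact congrArg Prod.snd (h1 f)
    refine ⟨φ, ?_, h3⟩
    rw [Finset.mem_filter]
    refine ⟨Finset.mem_univ _, (flow_iff e hc he φ h2).2 ?_⟩
    rw [h3]; exact hq.2
  · intro φ _; rfl

/-- Number of crossings. -/
theorem crossings_eq (φ : Sym2 V → ZMod 2 × ZMod 2) :
    crossings e φ = (Finset.univ.filter
      (fun p : Chord (tau e) × Chord (tau e) => prec p.1.1 p.2.1 ∧ prec p.2.1 (tau e p.1.1) ∧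
        prec (tau e p.1.1) (tau e p.2.1) ∧ ¬ ((toPair e φ).1 p.1 = (toPair e φ).1 p.2 ∧
          (toPair e φ).2 p.1 = (toPair e φ).2 p.2))).card := by
  classical
  unfold crossings
  rw [← Nat.card_eq_finsetCard]
  refine Nat.card_congr ?_
  refine Equiv.symm ?_
  refine (Equiv.ofBijective (fun p => ⟨(e p.1.1.1, e p.1.2.1), ?_⟩) ⟨?_, ?_⟩)
  · obtain ⟨p, hp⟩ := p
    rw [Finset.mem_filter] at hp
    obtain ⟨_, h1, h2, h3, h4⟩ := hp
    refine ⟨?_, ?_, ?_, ?_⟩
    · simpa using h1
    · simpa [tau] using h2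
    · simpa [tau] using h3
    · intro h
      exact h4 ⟨congrArg Prod.fst h, congrArg Prod.snd h⟩
  · rintro ⟨p, hp⟩ ⟨q, hq⟩ h
    have h1 := congrArg Subtype.val h
    simp only [Prod.mk.injEq] at h1
    refine Subtype.ext (Prod.ext ?_ ?_)
    · exact Subtype.ext (e.injective h1.1)
    · exact Subtype.ext (e.injective h1.2)
  · rintro ⟨⟨s, s'⟩, h1, h2, h3, h4⟩
    have g1 : prec (e.symm s) (tau e (e.symm s)) := by
      unfold tau; rw [Equiv.apply_symm_apply]; exact prec_trans h1 h2
    have g2 : prec (e.symm s') (tau e (e.symm s')) := by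
      unfold tau; rw [Equiv.apply_symm_apply]; exact prec_trans h2 h3
    refine ⟨⟨(⟨e.symm s, g1⟩, ⟨e.symm s', g2⟩), ?_⟩, ?_⟩
    · rw [Finset.mem_filter]
      refine ⟨Finset.mem_univ _, h1, ?_, ?_, ?_⟩
      · unfold tau; simpa using h2
      · unfold tau; simpa using h3
      · rintro ⟨h5, h6⟩
        refine h4 (Prod.ext ?_ ?_)
        · simpa [toPair, slotVal] using h5
        · simpa [toPair, slotVal] using h6
    · refine Subtype.ext ?_
      simp

open scoped Classical in
/-- **Balance for graphs.** -/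
theorem balance_graph (hc : CubicPair G W) (hno : ¬ HasCover G W) (he : IsEnum e) :
    ∑ φ with NZFlow G W φ, (-1 : ℤ) ^ crossings e φ = 0 := by
  have h1 := balance_pairs (Matrix.of (Bm (tau e))) (Bm_symm (tau e) (tau_tau e) (tau_ne e))
    (fun f => Bm_diag (tau e) (tau_ne e) f) (Matrix.of (Im (tau e)))
    (fun D hD => hno (cover_of_full e hc he.1 D hD))
  rw [← sum_flows e hc he (fun q => chi (hB (Matrix.of (Bm (tau e))) q.1 q.2))] at h1
  rw [← h1]
  refine Finset.sum_congr rfl fun φ hφ => ?_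
  rw [Finset.mem_filter] at hφ
  rw [crossings_eq, chi_hB (tau e) (tau_tau e) (tau_ne e)]
  intro f
  have h2 : φ (e f.1).edge ≠ 0 := (hφ.2.1 _).2 (edge_mem _)
  by_contra h3
  push Not at h3
  exact h2 (Prod.ext h3.1 h3.2)

/-- **Divisibility by twelve for graphs.** -/
theorem twelve_graph (hc : CubicPair G W) (hno : ¬ HasCover G W) :
    12 ∣ Nat.card {φ : Sym2 V → ZMod 2 × ZMod 2 // NZFlow G W φ} := by
  classical
  obtain ⟨t, d, e, he⟩ := enum V G W hc
  have h1 := twelve (Matrix.of (Bm (tau e))) (Bm_symm (tau e) (tau_tau e) (tau_ne e))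
    (fun f => Bm_diag (tau e) (tau_ne e) f) (Matrix.of (Im (tau e)))
    (fun D hD => hno (cover_of_full e hc he.1 D hD))
  have h2 := sum_flows e hc he (fun _ => 1)
  simp only [Finset.sum_const, nsmul_eq_mul, mul_one] at h2
  have h3 : (Finset.univ.filter (fun φ => NZFlow G W φ)).card =
      (flowPairs (Matrix.of (Im (tau e)))).card := by exact_mod_cast h2
  rw [← h3] at h1
  have h4 : Nat.card {φ : Sym2 V → ZMod 2 × ZMod 2 // NZFlow G W φ} =
      (Finset.univ.filter (fun φ => NZFlow G W φ)).card := by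
    rw [Nat.card_eq_fintype_card, Fintype.card_subtype]
  rw [h4]; exact h1

end Main

end Pool.Agent.FC
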