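import Pool.Agent.Lib_helper17.FC.Linear
import Pool.Agent.Lib_helper17.FC.General
import Pool.Agent.Lib_helper17.FC.Count
import Pool.Agent.Lib_helper63.FC.Graph

/-!
Permutation graphs given by a permutation `π` of `Fin n`.
-/

set_option autoImplicit false

namespace Pool.Agent.FC

open Finset Matrix

/-- Two discs with `n` slots each. -/
abbrev d2 (n : ℕ) : Fin 2 → ℕ := fun _ => n

variable {n : ℕ} (π : Equiv.Perm (Fin n))

/-- The involution given by the permutation (the second circuit is reversed). -/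
def tauP (s : Slot (d2 n)) : Slot (d2 n) :=
  if s.1 = 0 then ⟨1, Fin.rev (π s.2)⟩ else ⟨0, π.symm (Fin.rev s.2)⟩

theorem tauP_zero (i : Fin n) : tauP π ⟨0, i⟩ = ⟨1, Fin.rev (π i)⟩ := rfl

theorem tauP_one (i : Fin n) : tauP π ⟨1, i⟩ = ⟨0, π.symm (Fin.rev i)⟩ := rfl

theorem slot_cases (s : Slot (d2 n)) : (∃ i : Fin n, s = ⟨0, i⟩) ∨ (∃ i : Fin n, s = ⟨1, i⟩) := by
  obtain ⟨k, i⟩ := s
  have hk : k = 0 ∨ k = 1 := by clear i; revert k; decide
  rcases hk with rfl | rfl
  · exact Or.inl ⟨i, rfl⟩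
  · exact Or.inr ⟨i, rfl⟩

theorem tauP_tauP (s : Slot (d2 n)) : tauP π (tauP π s) = s := by
  rcases slot_cases s with ⟨i, rfl⟩ | ⟨i, rfl⟩
  · rw [tauP_zero, tauP_one, Fin.rev_rev, Equiv.symm_apply_apply]
  · rw [tauP_one, tauP_zero, Equiv.apply_symm_apply, Fin.rev_rev]

theorem tauP_fst (s : Slot (d2 n)) : (tauP π s).1 ≠ s.1 := by
  rcases slot_cases s with ⟨i, rfl⟩ | ⟨i, rfl⟩
  · rw [tauP_zero]; show (1 : Fin 2) ≠ 0; decide
  · rw [tauP_one]; show (0 : Fin 2) ≠ 1; decide

theorem tauP_ne (s : Slot (d2 n)) : tauP π s ≠ s := fun h => tauP_fst π s (congrArg Sigma.fst h)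

theorem prec_zero_one (i j : Fin n) : prec (d := d2 n) ⟨0, i⟩ ⟨1, j⟩ :=
  Or.inl (show (0 : Fin 2) < 1 by decide)

/-- The chord number `i`. -/
def chordP (i : Fin n) : Chord (tauP π) := ⟨⟨0, i⟩, prec_zero_one _ _⟩

theorem chordP_bij : Function.Bijective (chordP π) := by
  constructor
  · intro i j h
    have h1 := congrArg Subtype.val h
    simpa [chordP] using h1
  · rintro ⟨s, hs⟩
    rcases slot_cases s with ⟨i, rfl⟩ | ⟨i, rfl⟩
    · exact ⟨i, rfl⟩
    · rw [tauP_one] at hs
      exact absurd hs (prec_asymm (prec_zero_one _ _))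

/-- The equivalence with the chords. -/
noncomputable def chordE : Fin n ≃ Chord (tauP π) := Equiv.ofBijective _ (chordP_bij π)

theorem chordE_apply (i : Fin n) : chordE π i = chordP π i := rfl

theorem Im_one (f : Chord (tauP π)) (k : Fin 2) : Im (tauP π) f k = 1 := by
  have h := tauP_fst π f.1
  unfold Im
  have key : ∀ a b k : Fin 2, a ≠ b → (if b = k then (1 : ZMod 2) else 0) +
      (if a = k then 1 else 0) = 1 := by decide
  exact key _ _ _ h

theorem isFlow_P (x : Chord (tauP π) → ZMod 2) :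
    IsFlow (Matrix.of (Im (tauP π))) x ↔ ∑ i, x (chordE π i) = 0 := by
  unfold IsFlow
  rw [Equiv.sum_comp (chordE π) x]
  constructor
  · intro h
    have := h 0
    simpa [Im_one] using this
  · intro h t
    simpa [Im_one] using h

/-- The vectors of the three colours. -/
def vec (k : Fin 3) : ZMod 2 × ZMod 2 := if k = 0 then (1, 0) else if k = 1 then (0, 1) else (1, 1)

/-- The pair given by a colouring. -/
noncomputable def pairOf (c : Fin n → Fin 3) :
    (Chord (tauP π) → ZMod 2) × (Chord (tauP π) → ZMod 2) :=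
  (fun f => (vec (c ((chordE π).symm f))).1, fun f => (vec (c ((chordE π).symm f))).2)

/-- All classes are odd. -/
def OddClasses (c : Fin n → Fin 3) : Prop := ∀ k, Odd (Finset.univ.filter (fun i => c i = k)).card

instance (c : Fin n → Fin 3) : Decidable (OddClasses c) := by unfold OddClasses; infer_instance

theorem sum_vec (c : Fin n → Fin 3) : ∑ i, vec (c i) =
    ((((Finset.univ.filter (fun i => c i = 0)).card +
        (Finset.univ.filter (fun i => c i = 2)).card : ℕ) : ZMod 2),
     (((Finset.univ.filter (fun i => c i = 1)).card +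
        (Finset.univ.filter (fun i => c i = 2)).card : ℕ) : ZMod 2)) := by
  have h1 : ∀ k : Fin 3, vec k = ((if k = 0 then 1 else 0) + (if k = 2 then 1 else 0),
      (if k = 1 then 1 else 0) + (if k = 2 then 1 else 0)) := by decide
  rw [Finset.sum_congr rfl (fun i _ => h1 (c i))]
  refine Prod.ext ?_ ?_
  · rw [Prod.fst_sum]
    simp only [Finset.sum_add_distrib, Finset.sum_boole]
    push_cast; rfl
  · rw [Prod.snd_sum]
    simp only [Finset.sum_add_distrib, Finset.sum_boole]
    push_cast; rfl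

theorem card_classes (c : Fin n → Fin 3) : (Finset.univ.filter (fun i => c i = 0)).card +
    (Finset.univ.filter (fun i => c i = 1)).card + (Finset.univ.filter (fun i => c i = 2)).card = n := by
  have h1 := Finset.card_eq_sum_card_fiberwise (f := c) (s := Finset.univ) (t := Finset.univ)
    (fun _ _ => Finset.mem_coe.2 (Finset.mem_univ _))
  rw [Finset.card_univ, Fintype.card_fin, Fin.sum_univ_three] at h1
  exact h1.symm

theorem oddClasses_iff (hn : n % 4 = 1) (c : Fin n → Fin 3) :
    OddClasses c ↔ ∑ i, vec (c i) = 0 := by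
  rw [sum_vec, Prod.mk_eq_zero, ZMod.natCast_eq_zero_iff, ZMod.natCast_eq_zero_iff]
  have h1 := card_classes c
  constructor
  · intro h
    have h2 := Nat.odd_iff.1 (h 0)
    have h3 := Nat.odd_iff.1 (h 1)
    have h4 := Nat.odd_iff.1 (h 2)
    constructor <;> omega
  · rintro ⟨h2, h3⟩ k
    rw [Nat.odd_iff]
    have hk : k = 0 ∨ k = 1 ∨ k = 2 := by revert k; decide
    rcases hk with rfl | rfl | rfl <;> omega

/-- The balance for a permutation. -/
theorem balanceP (hno : ∀ D, ¬ Full (Matrix.of (Bm (tauP π))) (Matrix.of (Im (tauP π))) D) :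
    n % 4 = 1 ∧ ∑ c : Fin n → Fin 3 with OddClasses c,
      (-1 : ℤ) ^ (Finset.univ.filter (fun p : Fin n × Fin n =>
        p.1 < p.2 ∧ π p.2 < π p.1 ∧ c p.1 ≠ c p.2)).card = 0 := by
  classical
  have hn : n % 4 = 1 := by
    have h1 := twelve (Matrix.of (Bm (tauP π))) (Bm_symm (tauP π) (tauP_tauP π) (tauP_ne π))
      (fun f => Bm_diag (tauP π) (tauP_ne π) f) (Matrix.of (Im (tauP π))) hno
    have h2 := count_pairs (flowPairs (Matrix.of (Im (tauP π)))) (fun q => by
      rw [mem_flowPairs, isFlow_P, isFlow_P, Equiv.sum_comp (chordE π) q.1,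
        Equiv.sum_comp (chordE π) q.2])
    rw [Fintype.card_congr (chordE π).symm, Fintype.card_fin] at h2
    exact mod_four _ _ h2 h1
  refine ⟨hn, ?_⟩
  have h1 := balance_pairs (Matrix.of (Bm (tauP π))) (Bm_symm (tauP π) (tauP_tauP π) (tauP_ne π))
    (fun f => Bm_diag (tauP π) (tauP_ne π) f) (Matrix.of (Im (tauP π))) hno
  rw [← h1]
  have hmem : ∀ c : Fin n → Fin 3, OddClasses c ↔
      pairOf π c ∈ flowPairs (Matrix.of (Im (tauP π))) := by
    intro c
    rw [mem_flowPairs, isFlow_P, isFlow_P, oddClasses_iff hn]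
    have h2 : ∀ i, (pairOf π c).1 (chordE π i) = (vec (c i)).1 := by
      intro i; simp [pairOf]
    have h3 : ∀ i, (pairOf π c).2 (chordE π i) = (vec (c i)).2 := by
      intro i; simp [pairOf]
    rw [Finset.sum_congr rfl (fun i _ => h2 i), Finset.sum_congr rfl (fun i _ => h3 i),
      ← Prod.fst_sum, ← Prod.snd_sum]
    constructor
    · intro h
      rw [h]
      refine ⟨?_, rfl, rfl⟩
      intro f
      have : ∀ k : Fin 3, (vec k).1 ≠ 0 ∨ (vec k).2 ≠ 0 := by decide
      exact this _
    · rintro ⟨_, h4, h5⟩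
      exact Prod.ext h4 h5
  refine Finset.sum_bij (fun c _ => pairOf π c) ?_ ?_ ?_ ?_
  · intro c hc
    rw [Finset.mem_filter] at hc
    exact (hmem c).1 hc.2
  · intro c _ c' _ h
    funext i
    have h2 := congrFun (congrArg Prod.fst h) (chordE π i)
    have h3 := congrFun (congrArg Prod.snd h) (chordE π i)
    simp only [pairOf, Equiv.symm_apply_apply] at h2 h3
    have : ∀ k l : Fin 3, (vec k).1 = (vec l).1 → (vec k).2 = (vec l).2 → k = l := by decide
    exact this _ _ h2 h3
  · intro q hq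
    have hq' := hq
    rw [mem_flowPairs] at hq
    have key : ∀ a b : ZMod 2, (a ≠ 0 ∨ b ≠ 0) → ∃ k : Fin 3, vec k = (a, b) := by decide
    choose f hf using fun i : Fin n => key (q.1 (chordE π i)) (q.2 (chordE π i)) (hq.1 _)
    have h2 : pairOf π f = q := by
      refine Prod.ext ?_ ?_
      · funext g
        obtain ⟨i, rfl⟩ := (chordE π).surjective g
        simp only [pairOf, Equiv.symm_apply_apply]
        rw [hf]
      · funext g
        obtain ⟨i, rfl⟩ := (chordE π).surjective g
        simp only [pairOf, Equiv.symm_apply_apply]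
        rw [hf]
    refine ⟨f, ?_, h2⟩
    rw [Finset.mem_filter]
    refine ⟨Finset.mem_univ _, (hmem f).2 ?_⟩
    rw [h2]; exact hq'
  · intro c hc
    rw [Finset.mem_filter] at hc
    have hc' := (hmem c).1 hc.2
    rw [mem_flowPairs] at hc'
    rw [chi_hB (tauP π) (tauP_tauP π) (tauP_ne π) _ _ hc'.1]
    congr 1
    refine Finset.card_bij (fun p _ => (chordE π p.1, chordE π p.2)) ?_ ?_ ?_
    · intro p hp
      rw [Finset.mem_filter] at hp ⊢
      obtain ⟨_, h2, h3, h4⟩ := hp
      refine ⟨Finset.mem_univ _, ?_, ?_, ?_, ?_⟩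
      · exact Or.inr ⟨rfl, h2⟩
      · exact prec_zero_one _ _
      · refine Or.inr ⟨rfl, ?_⟩
        show (Fin.rev (π p.1)).val < (Fin.rev (π p.2)).val
        exact Fin.rev_lt_rev.2 h3
      · simp only [pairOf, Equiv.symm_apply_apply]
        rintro ⟨h5, h6⟩
        have : ∀ k l : Fin 3, (vec k).1 = (vec l).1 → (vec k).2 = (vec l).2 → k = l := by decide
        exact h4 (this _ _ h5 h6)
    · intro p _ p' _ h
      simp only [Prod.mk.injEq, EmbeddingLike.apply_eq_iff_eq] at h
      exact Prod.ext h.1 h.2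
    · rintro ⟨f, g⟩ hfg
      obtain ⟨i, rfl⟩ := (chordE π).surjective f
      obtain ⟨j, rfl⟩ := (chordE π).surjective g
      rw [Finset.mem_filter] at hfg
      obtain ⟨_, h2, _, h4, h5⟩ := hfg
      refine ⟨(i, j), ?_, rfl⟩
      rw [Finset.mem_filter]
      refine ⟨Finset.mem_univ _, ?_, ?_, ?_⟩
      · rcases h2 with h2 | h2
        · exact absurd h2 (lt_irrefl _)
        · exact h2.2
      · rcases h4 with h4 | h4
        · exact absurd h4 (lt_irrefl _)
        · have h6 : (Fin.rev (π i)).val < (Fin.rev (π j)).val := h4.2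
          exact Fin.rev_lt_rev.1 h6
      · intro h6
        simp only at h6
        refine h5 ?_
        simp only [pairOf, Equiv.symm_apply_apply, h6, and_self]

end Pool.Agent.FC
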