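import Pool.Agent.Lib_helper17.FC.Explicit

/-!
Permutation graphs given by two circuits `a`, `b` and a permutation.
-/

set_option autoImplicit false

namespace Pool.Agent.FC

open Finset Matrix

variable {V : Type} [Fintype V] [DecidableEq V] {n : ℕ}

/-- The vertices as slots, the second circuit reversed. -/
noncomputable def slotV (a b : Fin n → V) (hab : Function.Bijective (Sum.elim a b)) :
    Slot (d2 n) ≃ V :=
  Equiv.ofBijective (fun s : Slot (d2 n) => if s.1 = 0 then a s.2 else b (Fin.rev s.2)) (by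
    constructor
    · intro s s' h
      rcases slot_cases s with ⟨i, rfl⟩ | ⟨i, rfl⟩ <;> rcases slot_cases s' with ⟨j, rfl⟩ | ⟨j, rfl⟩
      · have h1 : Sum.elim a b (Sum.inl i) = Sum.elim a b (Sum.inl j) := h
        have h2 := hab.1 h1
        rw [Sum.inl.injEq] at h2
        rw [h2]
      · have h1 : Sum.elim a b (Sum.inl i) = Sum.elim a b (Sum.inr (Fin.rev j)) := h
        exact absurd (hab.1 h1) (by simp)
      · have h1 : Sum.elim a b (Sum.inr (Fin.rev i)) = Sum.elim a b (Sum.inl j) := h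
        exact absurd (hab.1 h1) (by simp)
      · have h1 : Sum.elim a b (Sum.inr (Fin.rev i)) = Sum.elim a b (Sum.inr (Fin.rev j)) := h
        have h2 := hab.1 h1
        rw [Sum.inr.injEq, Fin.rev_inj] at h2
        rw [h2]
    · intro v
      obtain ⟨x, hx⟩ := hab.2 v
      rcases x with i | i
      · exact ⟨⟨0, i⟩, hx⟩
      · refine ⟨⟨1, Fin.rev i⟩, ?_⟩
        show b (Fin.rev (Fin.rev i)) = v
        rw [Fin.rev_rev]; exact hx)

theorem slotV_zero (a b : Fin n → V) (hab : Function.Bijective (Sum.elim a b)) (i : Fin n) :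
    slotV a b hab ⟨0, i⟩ = a i := rfl

theorem slotV_one (a b : Fin n → V) (hab : Function.Bijective (Sum.elim a b)) (i : Fin n) :
    slotV a b hab ⟨1, i⟩ = b (Fin.rev i) := rfl

theorem rev_rotate (i : Fin n) : Fin.rev (finRotate n i) = (finRotate n).symm (Fin.rev i) := by
  rw [Equiv.eq_symm_apply]
  refine Fin.ext ?_
  by_cases h : i.val + 1 < n
  · have h1 := finRotate_val_lt n i h
    have h2 : (Fin.rev (finRotate n i)).val = n - (i.val + 1 + 1) := by rw [Fin.val_rev, h1]
    have h3 : (Fin.rev (finRotate n i)).val + 1 < n := by omega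
    rw [finRotate_val_lt n _ h3, h2, Fin.val_rev]
    omega
  · have h1 := finRotate_val_last n i h
    have hi := i.2
    have h2 : (Fin.rev (finRotate n i)).val = n - 1 := by rw [Fin.val_rev, h1]
    have h3 : ¬ (Fin.rev (finRotate n i)).val + 1 < n := by omega
    rw [finRotate_val_last n _ h3, Fin.val_rev]
    omega

theorem finRotate_ne (hn : 3 ≤ n) (i : Fin n) : finRotate n i ≠ i := by
  intro h
  have h0 := congrArg Fin.val h
  by_cases h1 : i.val + 1 < n
  · rw [finRotate_val_lt n i h1] at h0; omega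
  · rw [finRotate_val_last n i h1] at h0; omega

theorem finRotate_finRotate_ne (hn : 3 ≤ n) (i : Fin n) : finRotate n (finRotate n i) ≠ i := by
  intro h
  have h0 := congrArg Fin.val h
  by_cases h1 : i.val + 1 < n
  · have h2 := finRotate_val_lt n i h1
    by_cases h3 : (finRotate n i).val + 1 < n
    · rw [finRotate_val_lt n _ h3] at h0; omega
    · rw [finRotate_val_last n _ h3] at h0; omega
  · have h2 := finRotate_val_last n i h1
    by_cases h3 : (finRotate n i).val + 1 < n
    · rw [finRotate_val_lt n _ h3] at h0; omega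
    · rw [finRotate_val_last n _ h3] at h0; omega

/-- A full `D` gives a faithful cover of the permutation graph. -/
theorem coverP (G : SimpleGraph V) (a b : Fin n → V) (π : Equiv.Perm (Fin n)) (hn : 3 ≤ n)
    (hab : Function.Bijective (Sum.elim a b))
    (hG : ∀ u v, G.Adj u v ↔ ∃ i, s(u, v) = s(a i, a (finRotate n i)) ∨
      s(u, v) = s(b i, b (finRotate n i)) ∨ s(u, v) = s(a i, b (π i)))
    (D : Chord (tauP π) → ZMod 2)
    (hD : Full (Matrix.of (Bm (tauP π))) (Matrix.of (Im (tauP π))) D) :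
    ∃ L : List (Σ u : V, G.Walk u u), (∀ c ∈ L, c.2.IsCycle) ∧
      ∀ i, L.countP (fun c => decide (s(a i, a (finRotate n i)) ∈ c.2.edges)) = 1 ∧
        L.countP (fun c => decide (s(b i, b (finRotate n i)) ∈ c.2.edges)) = 1 ∧
        L.countP (fun c => decide (s(a i, b (π i)) ∈ c.2.edges)) = 2 := by
  classical
  obtain ⟨C, _, _, α, h1, h2⟩ := labels (tauP π) (tauP_tauP π) (tauP_ne π) D hD
  set v := slotV a b hab with hv
  set ρ : Equiv.Perm V := v.symm.trans ((rotAll (d2 n)).trans v) with hρ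
  set ι : Equiv.Perm V := v.symm.trans ((⟨tauP π, tauP π, tauP_tauP π, tauP_tauP π⟩ :
    Equiv.Perm (Slot (d2 n))).trans v) with hι
  have hρa : ∀ i, ρ (a i) = a (finRotate n i) := by
    intro i
    have : v.symm (a i) = ⟨0, i⟩ := by rw [Equiv.symm_apply_eq]; rfl
    show v (rotAll (d2 n) (v.symm (a i))) = _
    rw [this]; rfl
  have hρb : ∀ i, ρ (b i) = b ((finRotate n).symm i) := by
    intro i
    have : v.symm (b i) = ⟨1, Fin.rev i⟩ := by
      rw [Equiv.symm_apply_eq, hv, slotV_one, Fin.rev_rev]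
    show v (rotAll (d2 n) (v.symm (b i))) = _
    rw [this]
    show b (Fin.rev (finRotate n (Fin.rev i))) = _
    rw [rev_rotate, Fin.rev_rev]
  have hιa : ∀ i, ι (a i) = b (π i) := by
    intro i
    have : v.symm (a i) = ⟨0, i⟩ := by rw [Equiv.symm_apply_eq]; rfl
    show v (tauP π (v.symm (a i))) = _
    rw [this, tauP_zero, hv, slotV_one, Fin.rev_rev]
  have hιb : ∀ i, ι (b i) = a (π.symm i) := by
    intro i
    have : v.symm (b i) = ⟨1, Fin.rev i⟩ := by
      rw [Equiv.symm_apply_eq, hv, slotV_one, Fin.rev_rev]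
    show v (tauP π (v.symm (b i))) = _
    rw [this, tauP_one, hv, slotV_zero, Fin.rev_rev]
  have hcases : ∀ x : V, (∃ i, x = a i) ∨ (∃ i, x = b i) := by
    intro x
    obtain ⟨y, hy⟩ := hab.2 x
    rcases y with i | i
    · exact Or.inl ⟨i, hy.symm⟩
    · exact Or.inr ⟨i, hy.symm⟩
  have hne : ∀ i j, a i ≠ b j := by
    intro i j h
    have h3 : Sum.elim a b (Sum.inl i) = Sum.elim a b (Sum.inr j) := h
    exact absurd (hab.1 h3) (by simp)
  have hai : Function.Injective a := by
    intro i j h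
    have h3 : Sum.elim a b (Sum.inl i) = Sum.elim a b (Sum.inl j) := h
    exact Sum.inl.inj (hab.1 h3)
  have hbi : Function.Injective b := by
    intro i j h
    have h3 : Sum.elim a b (Sum.inr i) = Sum.elim a b (Sum.inr j) := h
    exact Sum.inr.inj (hab.1 h3)
  have hmain : ∃ L : List (Σ u : V, G.Walk u u), (∀ c ∈ L, c.2.IsCycle) ∧
      (∀ x, L.countP (fun c => decide (s(x, ρ x) ∈ c.2.edges)) = 1) ∧
      (∀ x, L.countP (fun c => decide (s(x, ι x) ∈ c.2.edges)) = 2) := by
    refine graphHalf V G ρ ι C (fun x => α (v.symm x)) ?_ ?_ ?_ ?_ ?_ ?_ ?_ ?_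
    · intro x
      rcases hcases x with ⟨i, rfl⟩ | ⟨i, rfl⟩
      · rw [hρa]; exact fun h => finRotate_ne hn i (hai h)
      · rw [hρb]
        intro h
        have h3 := hbi h
        rw [Equiv.symm_apply_eq] at h3
        exact finRotate_ne hn i h3.symm
    · intro x
      rcases hcases x with ⟨i, rfl⟩ | ⟨i, rfl⟩
      · rw [hρa, hρa]; exact fun h => finRotate_finRotate_ne hn i (hai h)
      · rw [hρb, hρb]
        intro h
        have h3 := hbi h
        rw [Equiv.symm_apply_eq, Equiv.symm_apply_eq] at h3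
        exact finRotate_finRotate_ne hn i h3.symm
    · intro x
      rcases hcases x with ⟨i, rfl⟩ | ⟨i, rfl⟩
      · rw [hιa]; exact fun h => hne _ _ h.symm
      · rw [hιb]; exact hne _ _
    · intro x
      rcases hcases x with ⟨i, rfl⟩ | ⟨i, rfl⟩
      · rw [hιa, hιb, Equiv.symm_apply_apply]
      · rw [hιb, hιa, Equiv.apply_symm_apply]
    · intro x
      rcases hcases x with ⟨i, rfl⟩ | ⟨i, rfl⟩
      · rw [hιa, hρa]; exact fun h => hne _ _ h.symm
      · rw [hιb, hρb]; exact hne _ _
    · intro x y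
      rw [hG]
      constructor
      · rintro ⟨i, h | h | h⟩
        · rcases Sym2.eq_iff.1 h with ⟨rfl, rfl⟩ | ⟨rfl, rfl⟩
          · exact Or.inl (hρa i).symm
          · exact Or.inr (Or.inl (hρa i).symm)
        · rcases Sym2.eq_iff.1 h with ⟨rfl, rfl⟩ | ⟨rfl, rfl⟩
          · right; left; rw [hρb, Equiv.symm_apply_apply]
          · left; rw [hρb, Equiv.symm_apply_apply]
        · rcases Sym2.eq_iff.1 h with ⟨rfl, rfl⟩ | ⟨rfl, rfl⟩
          · exact Or.inr (Or.inr (hιa i).symm)
          · right; right; rw [hιb, Equiv.symm_apply_apply]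
      · rintro (h | h | h)
        · subst h
          rcases hcases x with ⟨i, rfl⟩ | ⟨i, rfl⟩
          · exact ⟨i, Or.inl (by rw [hρa])⟩
          · refine ⟨(finRotate n).symm i, Or.inr (Or.inl ?_)⟩
            rw [hρb, Equiv.apply_symm_apply, Sym2.eq_swap]
        · subst h
          rcases hcases y with ⟨i, rfl⟩ | ⟨i, rfl⟩
          · exact ⟨i, Or.inl (by rw [hρa, Sym2.eq_swap])⟩
          · refine ⟨(finRotate n).symm i, Or.inr (Or.inl ?_)⟩
            rw [hρb, Equiv.apply_symm_apply]
        · subst h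
          rcases hcases x with ⟨i, rfl⟩ | ⟨i, rfl⟩
          · exact ⟨i, Or.inr (Or.inr (by rw [hιa]))⟩
          · refine ⟨π.symm i, Or.inr (Or.inr ?_)⟩
            rw [hιb, Equiv.apply_symm_apply, Sym2.eq_swap]
    · intro x
      have := h1 (v.symm x)
      simpa [hρ] using this
    · intro x
      have := h2 (v.symm x)
      simpa [hρ, hι] using this
  · obtain ⟨L, hL1, hL2, hL3⟩ := hmain
    refine ⟨L, hL1, fun i => ⟨?_, ?_, ?_⟩⟩
    · have := hL2 (a i)
      rwa [hρa] at this
    · have := hL2 (b (finRotate n i))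
      rw [hρb, Equiv.symm_apply_apply, Sym2.eq_swap] at this
      exact this
    · have := hL3 (a i)
      rwa [hιa] at this

/-- **Permutation graphs.** -/
theorem explicit (G : SimpleGraph V) (a b : Fin n → V) (π : Equiv.Perm (Fin n)) (hn : 3 ≤ n)
    (hab : Function.Bijective (Sum.elim a b))
    (hG : ∀ u v, G.Adj u v ↔ ∃ i, s(u, v) = s(a i, a (finRotate n i)) ∨
      s(u, v) = s(b i, b (finRotate n i)) ∨ s(u, v) = s(a i, b (π i)))
    (hno : ¬ ∃ L : List (Σ u : V, G.Walk u u), (∀ c ∈ L, c.2.IsCycle) ∧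
      ∀ i, L.countP (fun c => decide (s(a i, a (finRotate n i)) ∈ c.2.edges)) = 1 ∧
        L.countP (fun c => decide (s(b i, b (finRotate n i)) ∈ c.2.edges)) = 1 ∧
        L.countP (fun c => decide (s(a i, b (π i)) ∈ c.2.edges)) = 2) :
    n % 4 = 1 ∧ ∑ c : Fin n → Fin 3 with OddClasses c,
      (-1 : ℤ) ^ (Finset.univ.filter (fun p : Fin n × Fin n =>
        p.1 < p.2 ∧ π p.2 < π p.1 ∧ c p.1 ≠ c p.2)).card = 0 :=
  balanceP π (fun D hD => hno (coverP G a b π hn hab hG D hD))

end Pool.Agent.FC
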