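import Mathlib

/-!
Gauss sums over `F_4` attached to symmetric matrices over `F_2`.
-/

set_option autoImplicit false

namespace Pool.Agent.FC

open Finset Matrix

/-- The sign character of `ZMod 2`. -/
def chi (a : ZMod 2) : ℤ := if a = 0 then 1 else -1

theorem chi_zero : chi 0 = 1 := rfl
theorem chi_one : chi 1 = -1 := rfl

theorem chi_add (a b : ZMod 2) : chi (a + b) = chi a * chi b := by
  revert a b; decide

theorem chi_sum {ι : Type*} (s : Finset ι) (f : ι → ZMod 2) :
    chi (∑ i ∈ s, f i) = ∏ i ∈ s, chi (f i) := by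
  classical
  induction s using Finset.induction_on with
  | empty => simp [chi_zero]
  | insert a s ha ih => rw [Finset.sum_insert ha, Finset.prod_insert ha, chi_add, ih]

theorem sum_chi_mul (c : ZMod 2) : ∑ y : ZMod 2, chi (c * y) = if c = 0 then 2 else 0 := by
  revert c; decide

variable {m : Type*} [Fintype m] [DecidableEq m]

/-- Orthogonality. -/
theorem sum_chi_dot (c : m → ZMod 2) :
    ∑ y : m → ZMod 2, chi (∑ i, c i * y i) = if c = 0 then 2 ^ Fintype.card m else 0 := by
  have h1 : ∀ y : m → ZMod 2, chi (∑ i, c i * y i) = ∏ i, chi (c i * y i) := fun y => chi_sum _ _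
  simp_rw [h1]
  have h2 := (Finset.prod_univ_sum (fun _ : m => (Finset.univ : Finset (ZMod 2)))
    (fun i (y : ZMod 2) => chi (c i * y)))
  rw [Fintype.piFinset_univ] at h2
  rw [← h2]
  simp_rw [sum_chi_mul]
  by_cases hc : c = 0
  · simp [hc]
  · rw [if_neg hc]
    obtain ⟨i, hi⟩ := Function.ne_iff.1 hc
    exact Finset.prod_eq_zero (Finset.mem_univ i) (if_neg hi)

/-- The exponent of the Gauss sum. -/
def hexp (A : Matrix m m (ZMod 2)) (x y : m → ZMod 2) : ZMod 2 :=
  (∑ i, A i i * x i) + (∑ i, A i i * y i) + ∑ i, x i * (A *ᵥ y) i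

/-- The Gauss sum of a symmetric matrix. -/
def gauss (A : Matrix m m (ZMod 2)) : ℤ := ∑ x : m → ZMod 2, ∑ y : m → ZMod 2, chi (hexp A x y)

omit [DecidableEq m] in
theorem sum_symm (A : Matrix m m (ZMod 2)) (hA : A.IsSymm) (x y : m → ZMod 2) :
    ∑ i, x i * (A *ᵥ y) i = ∑ i, (A *ᵥ x) i * y i := by
  simp only [Matrix.mulVec, dotProduct, Finset.mul_sum, Finset.sum_mul]
  rw [Finset.sum_comm]
  refine Finset.sum_congr rfl fun j _ => Finset.sum_congr rfl fun i _ => ?_
  rw [hA.apply i j]; ring

/-- `x^T A x` is linear. -/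
theorem quad_diag (A : Matrix m m (ZMod 2)) (hA : A.IsSymm) (x : m → ZMod 2) :
    ∑ i, x i * (A *ᵥ x) i = ∑ i, A i i * x i := by
  have hmul : ∀ a : ZMod 2, a * a = a := by decide
  simp only [Matrix.mulVec, dotProduct, Finset.mul_sum]
  rw [← Finset.sum_product']
  rw [← Finset.sum_filter_add_sum_filter_not (Finset.univ ×ˢ Finset.univ) (fun q : m × m => q.1 = q.2)]
  have h1 : ∑ q ∈ (Finset.univ ×ˢ Finset.univ : Finset (m × m)) with ¬ q.1 = q.2,
      x q.1 * (A q.1 q.2 * x q.2) = 0 := by
    refine Finset.sum_involution (fun q _ => (q.2, q.1)) ?_ ?_ ?_ ?_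
    · intro q _
      have h2 : ∀ a : ZMod 2, a + a = 0 := by decide
      have h3 : x q.2 * (A q.2 q.1 * x q.1) = x q.1 * (A q.1 q.2 * x q.2) := by
        rw [hA.apply q.1 q.2]; ring
      rw [h3]; exact h2 _
    · intro q hq _ h
      simp only [Finset.mem_filter, Finset.mem_product, Finset.mem_univ, true_and] at hq
      exact hq (by rw [Prod.ext_iff] at h; exact h.2)
    · intro q hq
      simp only [Finset.mem_filter, Finset.mem_product, Finset.mem_univ, true_and] at hq ⊢
      exact fun h => hq h.symm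
    · intro q _; rfl
  rw [h1, add_zero]
  have h2 : (Finset.univ ×ˢ Finset.univ : Finset (m × m)).filter (fun q => q.1 = q.2) =
      Finset.univ.image (fun i : m => (i, i)) := by
    ext ⟨a, b⟩
    simp only [Finset.mem_filter, Finset.mem_product, Finset.mem_univ, true_and, Finset.mem_image,
      Prod.mk.injEq]
    constructor
    · intro h; exact ⟨a, rfl, h⟩
    · rintro ⟨c, rfl, h⟩; exact h
  rw [h2, Finset.sum_image (by intro a _ b _ h; exact (Prod.ext_iff.1 h).1)]
  refine Finset.sum_congr rfl fun i _ => ?_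
  have := hmul (x i)
  calc x i * (A i i * x i) = A i i * (x i * x i) := by ring
    _ = A i i * x i := by rw [this]

theorem sum_gauss_inner (A : Matrix m m (ZMod 2)) (hA : A.IsSymm) (x : m → ZMod 2) :
    ∑ y : m → ZMod 2, chi (hexp A x y) =
      if A *ᵥ x = (fun i => A i i) then 2 ^ Fintype.card m * chi (∑ i, A i i * x i) else 0 := by
  have h1 : ∀ y : m → ZMod 2, chi (hexp A x y) =
      chi (∑ i, A i i * x i) * chi (∑ i, (A i i + (A *ᵥ x) i) * y i) := by
    intro y
    rw [← chi_add, hexp, sum_symm A hA, add_assoc, ← Finset.sum_add_distrib]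
    congr 2
    refine Finset.sum_congr rfl fun i _ => ?_
    ring
  simp_rw [h1]
  rw [← Finset.mul_sum, sum_chi_dot (fun i => A i i + (A *ᵥ x) i)]
  have h2 : ((fun i => A i i + (A *ᵥ x) i) = (0 : m → ZMod 2)) ↔
      A *ᵥ x = (fun i => A i i) := by
    have h3 : ∀ a b : ZMod 2, a + b = 0 ↔ b = a := by decide
    constructor
    · intro h; funext i; exact (h3 _ _).1 (congrFun h i)
    · intro h; funext i; exact (h3 _ _).2 (congrFun h i)
  by_cases h : A *ᵥ x = (fun i => A i i)
  · rw [if_pos h, if_pos (h2.2 h)]; ring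
  · rw [if_neg h, if_neg (fun h' => h (h2.1 h'))]; ring

/-- The Gauss sum is `0` or `± 2^N |ker A|`. -/
theorem gauss_cases (A : Matrix m m (ZMod 2)) (hA : A.IsSymm) :
    gauss A = 0 ∨
    gauss A = 2 ^ Fintype.card m * ((Finset.univ.filter (fun k : m → ZMod 2 => A *ᵥ k = 0)).card : ℤ) ∨
    gauss A = - (2 ^ Fintype.card m * ((Finset.univ.filter (fun k : m → ZMod 2 => A *ᵥ k = 0)).card : ℤ)) := by
  classical
  unfold gauss
  simp_rw [sum_gauss_inner A hA]
  rw [← Finset.sum_filter, ← Finset.mul_sum]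
  by_cases hne : ∃ x0 : m → ZMod 2, A *ᵥ x0 = (fun i => A i i)
  · obtain ⟨x0, hx0⟩ := hne
    have hconst : ∀ x ∈ Finset.univ.filter (fun x : m → ZMod 2 => A *ᵥ x = (fun i => A i i)),
        chi (∑ i, A i i * x i) = chi (∑ i, A i i * x0 i) := by
      intro x hx
      rw [Finset.mem_filter] at hx
      have h1 : ∑ i, A i i * x i = ∑ i, (A *ᵥ x0) i * x i := by rw [hx0]
      have h2 : ∑ i, A i i * x0 i = ∑ i, (A *ᵥ x) i * x0 i := by rw [hx.2]
      rw [h1, h2, ← sum_symm A hA x0 x]
      congr 1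
      exact Finset.sum_congr rfl fun i _ => mul_comm _ _
    rw [Finset.sum_congr rfl hconst, Finset.sum_const]
    have hcard : (Finset.univ.filter (fun x : m → ZMod 2 => A *ᵥ x = (fun i => A i i))).card =
        (Finset.univ.filter (fun k : m → ZMod 2 => A *ᵥ k = 0)).card := by
      refine Finset.card_bij (fun x _ => x + x0) ?_ ?_ ?_
      · intro x hx
        rw [Finset.mem_filter] at hx ⊢
        refine ⟨Finset.mem_univ _, ?_⟩
        rw [Matrix.mulVec_add, hx.2, hx0]
        funext i
        have : ∀ a : ZMod 2, a + a = 0 := by decide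
        exact this _
      · intro x _ y _ h; exact add_right_cancel h
      · intro k hk
        rw [Finset.mem_filter] at hk
        refine ⟨k + x0, ?_, ?_⟩
        · rw [Finset.mem_filter]
          exact ⟨Finset.mem_univ _, by rw [Matrix.mulVec_add, hk.2, hx0, zero_add]⟩
        · funext i
          have : ∀ a b : ZMod 2, a + b + b = a := by decide
          exact this _ _
    rw [hcard]
    right
    have hc : ∀ a : ZMod 2, chi a = 1 ∨ chi a = -1 := by decide
    rcases hc (∑ i, A i i * x0 i) with h | h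
    · left; rw [h]; simp
    · right; rw [h]; simp
  · left
    rw [Finset.filter_false_of_mem]
    · simp
    · intro x _ h; exact hne ⟨x, h⟩

/-- The order three symmetry. -/
def rot3 : Equiv.Perm ((m → ZMod 2) × (m → ZMod 2)) where
  toFun q := (q.2, q.1 + q.2)
  invFun q := (q.1 + q.2, q.1)
  left_inv q := by
    have : ∀ a b : ZMod 2, b + (a + b) = a := by decide
    refine Prod.ext ?_ rfl
    funext i; exact this _ _
  right_inv q := by
    have : ∀ a b : ZMod 2, a + b + a = b := by decide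
    refine Prod.ext rfl ?_
    funext i; exact this _ _

theorem hexp_rot3 (A : Matrix m m (ZMod 2)) (hA : A.IsSymm) (q : (m → ZMod 2) × (m → ZMod 2)) :
    hexp A (rot3 q).1 (rot3 q).2 = hexp A q.1 q.2 := by
  obtain ⟨x, y⟩ := q
  simp only [rot3, Equiv.coe_fn_mk, hexp]
  have h1 : ∑ i, A i i * (x + y) i = ∑ i, A i i * x i + ∑ i, A i i * y i := by
    rw [← Finset.sum_add_distrib]
    exact Finset.sum_congr rfl fun i _ => by rw [Pi.add_apply]; ring
  have h2 : ∑ i, y i * (A *ᵥ (x + y)) i = ∑ i, x i * (A *ᵥ y) i + ∑ i, A i i * y i := by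
    rw [← quad_diag A hA y, Matrix.mulVec_add]
    have h3 : ∑ i, x i * (A *ᵥ y) i = ∑ i, y i * (A *ᵥ x) i := by
      rw [sum_symm A hA]
      exact Finset.sum_congr rfl fun i _ => mul_comm _ _
    rw [h3, ← Finset.sum_add_distrib]
    exact Finset.sum_congr rfl fun i _ => by rw [Pi.add_apply]; ring
  rw [h1, h2]
  generalize ∑ i, A i i * x i = a
  generalize ∑ i, A i i * y i = b
  generalize ∑ i, x i * (A *ᵥ y) i = c
  revert a b c; decide

theorem gauss_mod3 (A : Matrix m m (ZMod 2)) (hA : A.IsSymm) : gauss A ≡ 1 [ZMOD 3] := by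
  classical
  -- gauss = 4^N - 2 * #{h = 1}
  set X : Finset ((m → ZMod 2) × (m → ZMod 2)) :=
    Finset.univ.filter (fun q => hexp A q.1 q.2 = 1) with hX
  have h1 : gauss A = ∑ q : (m → ZMod 2) × (m → ZMod 2), chi (hexp A q.1 q.2) := by
    rw [gauss, ← Finset.univ_product_univ, Finset.sum_product]
  have h2 : ∀ q : (m → ZMod 2) × (m → ZMod 2), chi (hexp A q.1 q.2) =
      1 - 2 * (if hexp A q.1 q.2 = 1 then 1 else 0) := by
    intro q
    generalize hexp A q.1 q.2 = a
    revert a; decide
  have h3 : gauss A = (Fintype.card ((m → ZMod 2) × (m → ZMod 2)) : ℤ) - 2 * (X.card : ℤ) := by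
    rw [h1, Finset.sum_congr rfl (fun q _ => h2 q), Finset.sum_sub_distrib, ← Finset.mul_sum]
    simp [hX, Finset.sum_boole]
  have h4 : (Fintype.card ((m → ZMod 2) × (m → ZMod 2)) : ℤ) ≡ 1 [ZMOD 3] := by
    rw [Fintype.card_prod, Fintype.card_fun, ZMod.card]
    push_cast
    rw [← mul_pow]
    have : (2 * 2 : ℤ) ≡ 1 [ZMOD 3] := by decide
    simpa using this.pow (Fintype.card m)
  have h5 : 3 ∣ X.card := by
    -- the permutation rot3 acts on X without fixed points
    have hmem : ∀ q, q ∈ X ↔ rot3 q ∈ X := by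
      intro q
      rw [hX, Finset.mem_filter, Finset.mem_filter]
      simp only [Finset.mem_univ, true_and]
      rw [hexp_rot3 A hA]
    let σ : Function.End X := fun q => ⟨rot3 q.1, (hmem q.1).1 q.2⟩
    have hσ3 : σ ^ 3 ^ 1 = 1 := by
      funext q
      obtain ⟨q, hq⟩ := q
      have : (σ ^ 3 ^ 1) ⟨q, hq⟩ = σ (σ (σ ⟨q, hq⟩)) := rfl
      rw [this]
      refine Subtype.ext ?_
      show rot3 (rot3 (rot3 q)) = q
      simp only [rot3, Equiv.coe_fn_mk]
      refine Prod.ext ?_ ?_
      · funext i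
        have : ∀ a b : ZMod 2, b + (a + b) = a := by decide
        exact this _ _
      · funext i
        have : ∀ a b : ZMod 2, a + b + (b + (a + b)) = b := by decide
        exact this _ _
    have : Fact (Nat.Prime 3) := ⟨by norm_num⟩
    have hfix := Equiv.Perm.card_fixedPoints_modEq (p := 3) (n := 1) (f := σ) hσ3
    have hnofix : Fintype.card (Function.fixedPoints σ) = 0 := by
      rw [Fintype.card_eq_zero_iff]
      constructor
      rintro ⟨⟨q, hq⟩, hf⟩
      have hf' : rot3 q = q := congrArg Subtype.val hf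
      have hq0 : q = 0 := by
        have e1 := congrArg Prod.fst hf'
        have e2 := congrArg Prod.snd hf'
        simp only [rot3, Equiv.coe_fn_mk] at e1 e2
        have e3 : q.1 = 0 := by
          funext i
          have := congrFun e2 i
          rw [Pi.add_apply] at this
          simpa using this
        refine Prod.ext e3 ?_
        rw [e1, e3]; rfl
      rw [hX, Finset.mem_filter, hq0] at hq
      have h0 : hexp A (0 : (m → ZMod 2) × (m → ZMod 2)).1 (0 : (m → ZMod 2) × (m → ZMod 2)).2 = 0 := by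
        simp [hexp]
      rw [h0] at hq
      exact absurd hq.2 (by decide)
    rw [hnofix] at hfix
    have h6 : Fintype.card X = X.card := Fintype.card_coe X
    rw [h6] at hfix
    exact (Nat.modEq_zero_iff_dvd).1 hfix
  obtain ⟨k, hk⟩ := h5
  rw [h3, hk]
  have h7 : (2 * ((3 * k : ℕ) : ℤ)) ≡ 0 [ZMOD 3] := by
    rw [Int.modEq_zero_iff_dvd]
    push_cast
    exact ⟨2 * k, by ring⟩
  simpa using h4.sub h7

/-- Value of the Gauss sum. -/
theorem gauss_eq (A : Matrix m m (ZMod 2)) (hA : A.IsSymm) (c : ℕ)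
    (hc : (Finset.univ.filter (fun k : m → ZMod 2 => A *ᵥ k = 0)).card = 2 ^ c) :
    gauss A = (-2) ^ (Fintype.card m + c) := by
  have h1 := gauss_cases A hA
  have h2 := gauss_mod3 A hA
  rw [hc] at h1
  have h3 : (2 : ℤ) ^ Fintype.card m * ((2 ^ c : ℕ) : ℤ) = 2 ^ (Fintype.card m + c) := by
    push_cast; rw [pow_add]
  rw [h3] at h1
  have h4 : (2 : ℤ) ^ (Fintype.card m + c) ≡ (-1) ^ (Fintype.card m + c) [ZMOD 3] :=
    (show (2 : ℤ) ≡ -1 [ZMOD 3] by decide).pow _
  have h5 : ((-2 : ℤ)) ^ (Fintype.card m + c) = (-1) ^ (Fintype.card m + c) * 2 ^ (Fintype.card m + c) := by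
    rw [← mul_pow]; norm_num
  rw [h5]
  rcases Nat.even_or_odd (Fintype.card m + c) with he | ho
  · rw [he.neg_one_pow] at h4 ⊢
    rcases h1 with h | h | h
    · rw [h] at h2; exact absurd h2 (by decide)
    · rw [h, one_mul]
    · rw [h] at h2
      have := h4.neg.symm.trans h2
      exact absurd this (by decide)
  · rw [ho.neg_one_pow] at h4 ⊢
    rcases h1 with h | h | h
    · rw [h] at h2; exact absurd h2 (by decide)
    · rw [h] at h2
      have := h4.symm.trans h2
      exact absurd this (by decide)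
    · rw [h]; ring

end Pool.Agent.FC
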