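import Pool.Agent.Lib_helper17.FC.Twelve
import Pool.Agent.Lib_helper17.FC.Stmts2

/-!
Chord systems on several discs: the discs are cut open and put one after the other on a line.
-/

set_option autoImplicit false

namespace Pool.Agent.FC

open Finset Matrix

/-- The slots of `t` discs, the `i`-th disc having `d i` slots. -/
abbrev Slot {t : ℕ} (d : Fin t → ℕ) : Type := Σ i : Fin t, Fin (d i)

variable {t : ℕ} {d : Fin t → ℕ}

/-- The linear order of the slots. -/
def prec (u v : Slot d) : Prop := u.1 < v.1 ∨ (u.1 = v.1 ∧ u.2.val < v.2.val)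

instance : DecidableRel (prec (d := d)) := fun u v => by unfold prec; infer_instance

theorem prec_irrefl (u : Slot d) : ¬ prec u u := by
  rintro (h | h)
  · exact lt_irrefl _ h
  · exact lt_irrefl _ h.2

theorem prec_or (u v : Slot d) (h : u ≠ v) : (prec u v ∧ ¬ prec v u) ∨ (¬ prec u v ∧ prec v u) := by
  obtain ⟨i, j⟩ := u
  obtain ⟨i', j'⟩ := v
  rcases lt_trichotomy i i' with h1 | h1 | h1
  · left
    refine ⟨Or.inl h1, ?_⟩
    rintro (h2 | h2)
    · exact absurd h2 (lt_asymm h1)
    · exact absurd h2.1 (ne_of_gt h1)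
  · subst h1
    rcases lt_trichotomy j.val j'.val with h2 | h2 | h2
    · left
      refine ⟨Or.inr ⟨rfl, h2⟩, ?_⟩
      rintro (h3 | h3)
      · exact lt_irrefl _ h3
      · exact absurd h3.2 (lt_asymm h2)
    · exact absurd (by rw [Fin.ext h2]) h
    · right
      refine ⟨?_, Or.inr ⟨rfl, h2⟩⟩
      rintro (h3 | h3)
      · exact lt_irrefl _ h3
      · exact absurd h3.2 (lt_asymm h2)
  · right
    refine ⟨?_, Or.inl h1⟩
    rintro (h2 | h2)
    · exact absurd h2 (lt_asymm h1)
    · exact absurd h2.1 (ne_of_gt h1)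

theorem finRotate_val_lt (n : ℕ) (j : Fin n) (hj : j.val + 1 < n) :
    (finRotate n j).val = j.val + 1 := by
  obtain ⟨m, rfl⟩ : ∃ m, n = m + 1 := ⟨n - 1, by omega⟩
  exact coe_finRotate_of_ne_last (by intro h; rw [h] at hj; simp at hj)

theorem finRotate_val_last (n : ℕ) (j : Fin n) (hj : ¬ j.val + 1 < n) :
    (finRotate n j).val = 0 := by
  have hjl := j.2
  obtain ⟨m, rfl⟩ : ∃ m, n = m + 1 := ⟨n - 1, by omega⟩
  have : j = Fin.last m := Fin.ext (by simp; omega)
  rw [this, finRotate_last]; rfl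

/-- Indicator of `prec`. -/
def bp (u v : Slot d) : ZMod 2 := if prec u v then 1 else 0

theorem bp_self (u : Slot d) : bp u u = 0 := if_neg (prec_irrefl u)

theorem bp_add (u v : Slot d) (h : u ≠ v) : bp u v + bp v u = 1 := by
  unfold bp
  rcases prec_or u v h with h1 | h1
  · rw [if_pos h1.1, if_neg h1.2]; rfl
  · rw [if_neg h1.1, if_pos h1.2]; rfl

section Tau

variable (τ : Slot d → Slot d)

/-- The chords, represented by their first ends. -/
abbrev Chord : Type := {s : Slot d // prec s (τ s)}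

/-- The interlace matrix. -/
def Bm (e f : Chord τ) : ZMod 2 :=
  bp f.1 e.1 + bp f.1 (τ e.1) + bp (τ f.1) e.1 + bp (τ f.1) (τ e.1) + if e = f then 1 else 0

/-- The incidence matrix chord / disc modulo two. -/
def Im (e : Chord τ) (i : Fin t) : ZMod 2 :=
  (if e.1.1 = i then 1 else 0) + (if (τ e.1).1 = i then 1 else 0)

variable (hτ : ∀ s, τ (τ s) = s) (hτ' : ∀ s, τ s ≠ s)

include hτ hτ' in
theorem Bm_symm : (Matrix.of (Bm τ)).IsSymm := by
  refine Matrix.IsSymm.ext fun e f => ?_
  simp only [Matrix.of_apply]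
  by_cases hef : e = f
  · subst hef; rfl
  · have h1 : e.1 ≠ f.1 := fun h => hef (Subtype.ext h)
    have h2 : e.1 ≠ τ f.1 := by
      intro h
      have h3 := f.2
      have h4 := e.2
      rw [h, hτ] at h4
      rcases prec_or f.1 (τ f.1) (fun h => hτ' _ h.symm) with h5 | h5
      · exact h5.2 h4
      · exact h5.1 h3
    have h3 : τ e.1 ≠ f.1 := fun h => h2 (by rw [← h, hτ])
    have h4 : τ e.1 ≠ τ f.1 := fun h => h1 (by rw [← hτ e.1, h, hτ])
    have g1 := bp_add _ _ h1
    have g2 := bp_add _ _ h2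
    have g3 := bp_add _ _ h3
    have g4 := bp_add _ _ h4
    unfold Bm
    rw [if_neg hef, if_neg (fun h => hef h.symm)]
    revert g1 g2 g3 g4
    generalize bp e.1 f.1 = a1
    generalize bp e.1 (τ f.1) = a2
    generalize bp (τ e.1) f.1 = a3
    generalize bp (τ e.1) (τ f.1) = a4
    generalize bp f.1 e.1 = b1
    generalize bp (τ f.1) e.1 = b2
    generalize bp f.1 (τ e.1) = b3
    generalize bp (τ f.1) (τ e.1) = b4
    intro g1 g2 g3 g4
    have c1 : b1 = 1 - a1 := by rw [← g1]; ring
    have c2 : b2 = 1 - a2 := by rw [← g2]; ring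
    have c3 : b3 = 1 - a3 := by rw [← g3]; ring
    have c4 : b4 = 1 - a4 := by rw [← g4]; ring
    rw [c1, c2, c3, c4]
    clear c1 c2 c3 c4 g1 g2 g3 g4
    revert a1 a2 a3 a4; decide

include hτ' in
theorem Bm_diag (e : Chord τ) : Bm τ e e = 0 := by
  unfold Bm
  rw [bp_self, bp_self, if_pos rfl]
  have h1 := bp_add e.1 (τ e.1) (fun h => hτ' _ h.symm)
  have h2 : bp e.1 (τ e.1) = 1 := if_pos e.2
  rw [h2] at h1 ⊢
  have h3 : bp (τ e.1) e.1 = 0 := by
    have := congrArg (fun z => z - 1) h1
    simpa using this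
  rw [h3]; decide

include hτ hτ' in
theorem not_prec_tau (s : Slot d) (h : ¬ prec s (τ s)) : prec (τ s) (τ (τ s)) := by
  rw [hτ]
  rcases prec_or s (τ s) (fun h => hτ' _ h.symm) with h1 | h1
  · exact absurd h1.1 h
  · exact h1.2

/-- Sum over the slots as a sum over the chords. -/
theorem sum_slots {A : Type*} [AddCommMonoid A] (hτ : ∀ s, τ (τ s) = s) (hτ' : ∀ s, τ s ≠ s)
    (g : Slot d → A) :
    ∑ u, g u = ∑ f : Chord τ, (g f.1 + g (τ f.1)) := by
  classical
  rw [← Finset.sum_filter_add_sum_filter_not Finset.univ (fun s => prec s (τ s)),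
    Finset.sum_add_distrib]
  congr 1
  · rw [← Finset.sum_subtype_eq_sum_filter, Finset.subtype_univ]
  · refine Finset.sum_bij' (fun s hs => (⟨τ s, not_prec_tau τ hτ hτ' s
        (Finset.mem_filter.1 hs).2⟩ : Chord τ)) (fun f _ => τ f.1) ?_ ?_ ?_ ?_ ?_
    · intro s _; exact Finset.mem_univ _
    · intro f _
      rw [Finset.mem_filter]
      refine ⟨Finset.mem_univ _, ?_⟩
      rw [hτ]
      rcases prec_or f.1 (τ f.1) (fun h => hτ' _ h.symm) with h1 | h1
      · exact h1.2
      · exact absurd f.2 h1.1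
    · intro s _; exact hτ s
    · intro f _
      exact Subtype.ext (hτ f.1)
    · intro s _
      show g s = g (τ (τ s))
      rw [hτ]

/-- The value on the slots. -/
def extend (p : Chord τ → ZMod 2) (hτ : ∀ s, τ (τ s) = s) (hτ' : ∀ s, τ s ≠ s) (s : Slot d) :
    ZMod 2 :=
  if h : prec s (τ s) then p ⟨s, h⟩ else p ⟨τ s, not_prec_tau τ hτ hτ' s h⟩

theorem extend_chord (hτ : ∀ s, τ (τ s) = s) (hτ' : ∀ s, τ s ≠ s) (p : Chord τ → ZMod 2)
    (f : Chord τ) : extend τ p hτ hτ' f.1 = p f := by
  unfold extend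
  rw [dif_pos f.2]

theorem extend_tau_chord (hτ : ∀ s, τ (τ s) = s) (hτ' : ∀ s, τ s ≠ s) (p : Chord τ → ZMod 2)
    (f : Chord τ) : extend τ p hτ hτ' (τ f.1) = p f := by
  unfold extend
  have : ¬ prec (τ f.1) (τ (τ f.1)) := by
    rw [hτ]
    rcases prec_or f.1 (τ f.1) (fun h => hτ' _ h.symm) with h1 | h1
    · exact h1.2
    · exact absurd f.2 h1.1
  rw [dif_neg this]
  exact congrArg p (Subtype.ext (hτ f.1))

theorem exists_chord (hτ : ∀ s, τ (τ s) = s) (hτ' : ∀ s, τ s ≠ s) (s : Slot d) :
    ∃ f : Chord τ, s = f.1 ∨ s = τ f.1 := by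
  by_cases h : prec s (τ s)
  · exact ⟨⟨s, h⟩, Or.inl rfl⟩
  · exact ⟨⟨τ s, not_prec_tau τ hτ hτ' s h⟩, Or.inr (hτ s).symm⟩

theorem extend_tau (hτ : ∀ s, τ (τ s) = s) (hτ' : ∀ s, τ s ≠ s) (p : Chord τ → ZMod 2)
    (s : Slot d) : extend τ p hτ hτ' (τ s) = extend τ p hτ hτ' s := by
  obtain ⟨f, rfl | rfl⟩ := exists_chord τ hτ hτ' s
  · rw [extend_chord, extend_tau_chord]
  · rw [hτ, extend_chord, extend_tau_chord]

/-- The sum over the preceding slots. -/
def sig (hτ : ∀ s, τ (τ s) = s) (hτ' : ∀ s, τ s ≠ s) (p : Chord τ → ZMod 2) (s : Slot d) :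
    ZMod 2 :=
  ∑ u, bp u s * extend τ p hτ hτ' u

theorem sig_chord (hτ : ∀ s, τ (τ s) = s) (hτ' : ∀ s, τ s ≠ s) (p : Chord τ → ZMod 2)
    (e : Chord τ) : sig τ hτ hτ' p e.1 + sig τ hτ hτ' p (τ e.1) =
      ∑ f, Bm τ e f * p f + p e := by
  unfold sig
  rw [sum_slots τ hτ hτ', sum_slots τ hτ hτ', ← Finset.sum_add_distrib]
  have h1 : p e = ∑ f : Chord τ, (if e = f then 1 else 0) * p f := by
    simp
  conv_rhs => rw [h1]
  rw [← Finset.sum_add_distrib]
  refine Finset.sum_congr rfl fun f _ => ?_
  rw [extend_chord, extend_tau_chord]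
  unfold Bm
  generalize (if e = f then (1 : ZMod 2) else 0) = c
  generalize p f = a
  generalize bp f.1 e.1 = b1
  generalize bp (τ f.1) e.1 = b2
  generalize bp f.1 (τ e.1) = b3
  generalize bp (τ f.1) (τ e.1) = b4
  revert c a b1 b2 b3 b4; decide

/-- The sum over a disc. -/
theorem sum_disc (hτ : ∀ s, τ (τ s) = s) (hτ' : ∀ s, τ s ≠ s) (p : Chord τ → ZMod 2)
    (i : Fin t) : ∑ u : Slot d, (if u.1 = i then 1 else 0) * extend τ p hτ hτ' u =
      ∑ e, Im τ e i * p e := by
  rw [sum_slots τ hτ hτ']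
  refine Finset.sum_congr rfl fun f _ => ?_
  rw [extend_chord, extend_tau_chord]
  unfold Im
  ring

theorem sig_rot (hτ : ∀ s, τ (τ s) = s) (hτ' : ∀ s, τ s ≠ s) (p : Chord τ → ZMod 2)
    (hp : ∀ i, ∑ e, Im τ e i * p e = 0) (s : Slot d) :
    sig τ hτ hτ' p (rotAll d s) = sig τ hτ hτ' p s + extend τ p hτ hτ' s := by
  classical
  obtain ⟨i, j⟩ := s
  have hrot : rotAll d ⟨i, j⟩ = ⟨i, finRotate (d i) j⟩ := rfl
  have hs : extend τ p hτ hτ' ⟨i, j⟩ =
      ∑ u : Slot d, (if u = ⟨i, j⟩ then 1 else 0) * extend τ p hτ hτ' u := by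
    simp
  by_cases hj : j.val + 1 < d i
  · -- not the last slot
    have h1 : ∀ u : Slot d, bp u (rotAll d ⟨i, j⟩) = bp u ⟨i, j⟩ + if u = ⟨i, j⟩ then 1 else 0 := by
      intro u
      rw [hrot]
      have hval := finRotate_val_lt (d i) j hj
      obtain ⟨i', j'⟩ := u
      unfold bp prec
      by_cases h2 : i' < i
      · have h3 : i' ≠ i := ne_of_lt h2
        rw [if_pos (Or.inl h2), if_pos (Or.inl h2), if_neg (by
          intro h; exact h3 (congrArg Sigma.fst h)), add_zero]
      · by_cases h3 : i' = i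
        · subst h3
          simp only [lt_irrefl, false_or, true_and, hval]
          by_cases h4 : j'.val < j.val
          · rw [if_pos (by omega), if_pos h4, if_neg, add_zero]
            intro h
            have h5 : j' = j := by simpa using h
            rw [h5] at h4; exact lt_irrefl _ h4
          · by_cases h5 : j' = j
            · subst h5
              simp
            · have h6 : j'.val ≠ j.val := fun h => h5 (Fin.ext h)
              rw [if_neg (by omega), if_neg h4, if_neg (by simpa using h5), add_zero]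
        · rw [if_neg, if_neg, if_neg, add_zero]
          · intro h; exact h3 (congrArg Sigma.fst h)
          · rintro (h | h)
            · exact h2 h
            · exact h3 h.1
          · rintro (h | h)
            · exact h2 h
            · exact h3 h.1
    unfold sig
    rw [hs, ← Finset.sum_add_distrib]
    refine Finset.sum_congr rfl fun u _ => ?_
    rw [h1 u]; ring
  · -- the last slot
    have h1 : ∀ u : Slot d, bp u (rotAll d ⟨i, j⟩) =
        bp u ⟨i, j⟩ + (if u = ⟨i, j⟩ then 1 else 0) + (if u.1 = i then 1 else 0) := by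
      intro u
      rw [hrot]
      have hval := finRotate_val_last (d i) j hj
      obtain ⟨i', j'⟩ := u
      unfold bp prec
      by_cases h2 : i' < i
      · have h3 : i' ≠ i := ne_of_lt h2
        rw [if_pos (Or.inl h2), if_pos (Or.inl h2), if_neg (by
          intro h; exact h3 (congrArg Sigma.fst h)), if_neg h3, add_zero, add_zero]
      · by_cases h3 : i' = i
        · subst h3
          simp only [lt_irrefl, false_or, true_and, hval]
          by_cases h4 : j'.val < j.val
          · rw [if_neg (by omega), if_pos h4, if_neg, if_pos trivial]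
            · decide
            intro h
            have h5 : j' = j := by simpa using h
            rw [h5] at h4; exact lt_irrefl _ h4
          · have h5 : j' = j := Fin.ext (by have := j'.2; omega)
            subst h5
            rw [if_neg (by omega), if_neg h4, if_pos rfl, if_pos trivial]; decide
        · rw [if_neg, if_neg, if_neg, if_neg h3, add_zero, add_zero]
          · intro h; exact h3 (congrArg Sigma.fst h)
          · rintro (h | h)
            · exact h2 h
            · exact h3 h.1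
          · rintro (h | h)
            · exact h2 h
            · exact h3 h.1
    have h2 := sum_disc τ hτ hτ' p i
    rw [hp i] at h2
    unfold sig
    rw [hs, ← Finset.sum_add_distrib]
    have h3 : ∑ u : Slot d, bp u (rotAll d ⟨i, j⟩) * extend τ p hτ hτ' u =
        ∑ u : Slot d, (bp u ⟨i, j⟩ * extend τ p hτ hτ' u +
          (if u = ⟨i, j⟩ then 1 else 0) * extend τ p hτ hτ' u) +
        ∑ u : Slot d, (if u.1 = i then 1 else 0) * extend τ p hτ hτ' u := by
      rw [← Finset.sum_add_distrib]
      refine Finset.sum_congr rfl fun u _ => ?_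
      rw [h1 u]; ring
    rw [h3, h2, add_zero]

/-- **The labels.** -/
theorem labels (hτ : ∀ s, τ (τ s) = s) (hτ' : ∀ s, τ s ≠ s) (D : Chord τ → ZMod 2)
    (hD : Full (Matrix.of (Bm τ)) (Matrix.of (Im τ)) D) :
    ∃ (C : Type) (_ : Fintype C) (_ : DecidableEq C) (α : Slot d → C),
      (∀ s, α (rotAll d s) ≠ α s) ∧
      (∀ s, (α s = α (τ s) ∧ α (rotAll d s) = α (rotAll d (τ s))) ∨
        (α s = α (rotAll d (τ s)) ∧ α (rotAll d s) = α (τ s))) := by
  classical
  set K : Type := {k : Chord τ ⊕ Fin t → ZMod 2 //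
    bmat (Matrix.of (Bm τ)) (Matrix.of (Im τ)) D *ᵥ k = 0} with hK
  let α : Slot d → (K → ZMod 2) := fun s k =>
    sig τ hτ hτ' (fun e => k.1 (Sum.inl e)) s + k.1 (Sum.inr s.1)
  have hflow : ∀ k : K, ∀ i, ∑ e, Im τ e i * k.1 (Sum.inl e) = 0 := by
    intro k i
    have := congrFun k.2 (Sum.inr i)
    rw [mulVec_inr] at this
    exact this
  have hrot : ∀ s k, α (rotAll d s) k =
      α s k + extend τ (fun e => k.1 (Sum.inl e)) hτ hτ' s := by
    intro s k
    show sig τ hτ hτ' (fun e => k.1 (Sum.inl e)) (rotAll d s) + k.1 (Sum.inr s.1) = _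
    rw [sig_rot τ hτ hτ' _ (hflow k)]
    show _ = sig τ hτ hτ' (fun e => k.1 (Sum.inl e)) s + k.1 (Sum.inr s.1) + _
    ring
  have hchord : ∀ (e : Chord τ) (k : K), α e.1 k + α (τ e.1) k =
      (D e + 1) * k.1 (Sum.inl e) := by
    intro e k
    have h1 := congrFun k.2 (Sum.inl e)
    rw [mulVec_inl] at h1
    have h2 := sig_chord τ hτ hτ' (fun e => k.1 (Sum.inl e)) e
    have h3 : ∑ i, Im τ e i * k.1 (Sum.inr i) =
        k.1 (Sum.inr e.1.1) + k.1 (Sum.inr (τ e.1).1) := by
      unfold Im
      simp only [add_mul, Finset.sum_add_distrib, ite_mul, one_mul, zero_mul,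
        Finset.sum_ite_eq, Finset.mem_univ, if_true]
    simp only [Matrix.of_apply, Pi.zero_apply] at h1
    rw [h3] at h1
    show (sig τ hτ hτ' (fun e => k.1 (Sum.inl e)) e.1 + k.1 (Sum.inr e.1.1)) +
      (sig τ hτ hτ' (fun e => k.1 (Sum.inl e)) (τ e.1) + k.1 (Sum.inr (τ e.1).1)) = _
    have h4 : (sig τ hτ hτ' (fun e => k.1 (Sum.inl e)) e.1 + k.1 (Sum.inr e.1.1)) +
      (sig τ hτ hτ' (fun e => k.1 (Sum.inl e)) (τ e.1) + k.1 (Sum.inr (τ e.1).1)) =
      (sig τ hτ hτ' (fun e => k.1 (Sum.inl e)) e.1 + sig τ hτ hτ' (fun e => k.1 (Sum.inl e)) (τ e.1))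
      + (k.1 (Sum.inr e.1.1) + k.1 (Sum.inr (τ e.1).1)) := by ring
    rw [h4, h2]
    revert h1
    generalize ∑ f, Bm τ e f * k.1 (Sum.inl f) = a
    generalize k.1 (Sum.inl e) = b
    generalize k.1 (Sum.inr e.1.1) = c
    generalize k.1 (Sum.inr (τ e.1).1) = c'
    generalize D e = x
    revert a b c c' x; decide
  refine ⟨K → ZMod 2, inferInstance, inferInstance, α, ?_, ?_⟩
  · intro s h
    obtain ⟨f, hf⟩ := exists_chord τ hτ hτ' s
    obtain ⟨k, hk1, hk2⟩ := hD f
    have h1 := hrot s ⟨k, hk1⟩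
    rw [h] at h1
    have h2 : extend τ (fun e => k (Sum.inl e)) hτ hτ' s = k (Sum.inl f) := by
      rcases hf with rfl | rfl
      · rw [extend_chord]
      · rw [extend_tau_chord]
    simp only [h2] at h1
    exact hk2 (by simpa using h1.symm)
  · -- the two cases
    have key : ∀ (s : Slot d) (x : ZMod 2), (∀ k : K, α s k + α (τ s) k =
        (x + 1) * extend τ (fun e => k.1 (Sum.inl e)) hτ hτ' s) →
        ((α s = α (τ s) ∧ α (rotAll d s) = α (rotAll d (τ s))) ∨
        (α s = α (rotAll d (τ s)) ∧ α (rotAll d s) = α (τ s))) := by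
      intro s x hx
      have hx2 : x = 1 ∨ x = 0 := by clear hx; revert x; decide
      rcases hx2 with rfl | rfl
      · left
        have h1 : ∀ k : K, α s k = α (τ s) k := by
          intro k
          have := hx k
          revert this
          generalize α s k = a
          generalize α (τ s) k = b
          generalize extend τ (fun e => k.1 (Sum.inl e)) hτ hτ' s = c
          revert a b c; decide
        refine ⟨funext h1, funext fun k => ?_⟩
        rw [hrot, hrot, h1, extend_tau]
      · right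
        have h1 : ∀ k : K, α s k + α (τ s) k = extend τ (fun e => k.1 (Sum.inl e)) hτ hτ' s := by
          intro k
          rw [hx k]; ring
        constructor
        · funext k
          have := h1 k
          rw [hrot, extend_tau]
          revert this
          generalize α s k = a
          generalize α (τ s) k = b
          generalize extend τ (fun e => k.1 (Sum.inl e)) hτ hτ' s = c
          revert a b c; decide
        · funext k
          have := h1 k
          rw [hrot]
          revert this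
          generalize α s k = a
          generalize α (τ s) k = b
          generalize extend τ (fun e => k.1 (Sum.inl e)) hτ hτ' s = c
          revert a b c; decide
    intro s
    obtain ⟨f, rfl | rfl⟩ := exists_chord τ hτ hτ' s
    · refine key f.1 (D f) fun k => ?_
      rw [hchord, extend_chord]
    · refine key (τ f.1) (D f) fun k => ?_
      rw [hτ, add_comm, hchord, extend_tau_chord]

end Tau

end Pool.Agent.FC
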