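import Pool.Agent.Lib_helper17.FC.General
import Pool.Agent.Lib_helper17.FC.Count
import Pool.Agent.Lib_helper17.FC.Stmts3

/-!
Permutation graphs: `W` is a 2-factor consisting of two circuits joined by all other edges.
-/

set_option autoImplicit false

namespace Pool.Agent.FC

open Finset Matrix

variable {V : Type} [Fintype V] [DecidableEq V] {G W : SimpleGraph V}
variable {t : ℕ} {d : Fin t → ℕ} (e : Slot d ≃ MDart G W)

/-- In a permutation graph there is exactly one dart at each vertex. -/
theorem dart_unique (hp : PermPair G W) (s s' : MDart G W) (h : s.1.1 = s'.1.1) : s = s' := by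
  classical
  obtain ⟨⟨hWG, h3, _⟩, h2, _, _⟩ := hp
  refine Subtype.ext (Prod.ext h ?_)
  by_contra hne
  have h4 : insert s.1.2 (insert s'.1.2 (W.neighborSet s.1.1)) ⊆ G.neighborSet s.1.1 := by
    intro w hw
    rcases hw with rfl | rfl | hw
    · exact s.2.1
    · rw [h]; exact s'.2.1
    · exact hWG hw
  have h5 := Set.ncard_le_ncard h4 (Set.toFinite _)
  have n1 : s'.1.2 ∉ W.neighborSet s.1.1 := by
    rw [h]; exact s'.2.2
  have n2 : s.1.2 ∉ insert s'.1.2 (W.neighborSet s.1.1) := by
    rintro (h6 | h6)
    · exact hne h6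
    · exact s.2.2 h6
  rw [Set.ncard_insert_of_notMem n2 (Set.toFinite _), Set.ncard_insert_of_notMem n1 (Set.toFinite _),
    h2, h3] at h5
  omega

theorem card_V (hp : PermPair G W) : Fintype.card V = 2 * Fintype.card (Chord (tau e)) := by
  classical
  have h1 : Fintype.card (MDart G W) = Fintype.card V := by
    refine Fintype.card_congr (Equiv.ofBijective (fun s : MDart G W => s.1.1) ⟨?_, ?_⟩)
    · intro s s' h; exact dart_unique hp s s' h
    · intro v
      exact exists_dart hp.1 v
  have h2 : Fintype.card (Slot d) = 2 * Fintype.card (Chord (tau e)) := by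
    have h3 := sum_slots (tau e) (A := ℕ) (tau_tau e) (tau_ne e) (fun _ => 1)
    simp only [Finset.sum_const, smul_eq_mul, mul_one] at h3
    have h4 : Fintype.card (Slot d) = (Finset.univ : Finset (Slot d)).card := rfl
    have h5 : Fintype.card (Chord (tau e)) = (Finset.univ : Finset (Chord (tau e))).card := rfl
    rw [h4, h5, h3]; ring
  rw [← h1, ← h2]
  exact Fintype.card_congr e.symm

/-- In a permutation graph flows are the functions with sum zero. -/
theorem isFlow_iff_sum (hp : PermPair G W) (he : IsEnum e) (x : Chord (tau e) → ZMod 2) :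
    IsFlow (Matrix.of (Im (tau e))) x ↔ ∑ f, x f = 0 := by
  classical
  obtain ⟨hc, h2, ⟨a, b, hab, hab'⟩, hM⟩ := hp
  have hchord : ∀ f : Chord (tau e), ∀ i : Fin t, (∃ u : Slot d, u.1 = i) → Im (tau e) f i = 1 := by
    intro f i hi
    obtain ⟨u, rfl⟩ := hi
    -- the two ends of the chord
    have g1 : (e (tau e f.1)).1.1 = (e f.1).1.2 := by
      unfold tau; rw [Equiv.apply_symm_apply]; rfl
    have g2 : ¬ W.Reachable (e f.1).1.1 (e (tau e f.1)).1.1 := by
      rw [g1]; exact hM _ _ (e f.1).2.1 (e f.1).2.2
    have g3 : ∀ u v : Slot d, u.1 = v.1 ↔ W.Reachable (e u).1.1 (e v).1.1 := by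
      intro u v
      have := he.2 (e u) (e v)
      rwa [Equiv.symm_apply_apply, Equiv.symm_apply_apply] at this
    have g4 : f.1.1 = u.1 ∨ (tau e f.1).1 = u.1 := by
      rw [g3, g3]
      rcases hab' (e f.1).1.1 with k1 | k1 <;> rcases hab' (e (tau e f.1)).1.1 with k2 | k2 <;>
        rcases hab' (e u).1.1 with k3 | k3
      · exact Or.inl (k1.symm.trans k3)
      · exact absurd (k1.symm.trans k2) g2
      · exact Or.inl (k1.symm.trans k3)
      · exact Or.inr (k2.symm.trans k3)
      · exact Or.inr (k2.symm.trans k3)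
      · exact Or.inl (k1.symm.trans k3)
      · exact absurd (k1.symm.trans k2) g2
      · exact Or.inl (k1.symm.trans k3)
    have g5 : f.1.1 ≠ (tau e f.1).1 := fun h => g2 ((g3 _ _).1 h)
    unfold Im
    rcases g4 with h | h
    · rw [if_pos h, if_neg (fun h' => g5 (h.trans h'.symm)), add_zero]
    · rw [if_pos h, if_neg (fun h' => g5 (h'.trans h.symm)), zero_add]
  constructor
  · intro h
    obtain ⟨s, _⟩ := exists_dart hc a
    have h3 := h (e.symm s).1
    simp only [Matrix.of_apply] at h3
    rw [Finset.sum_congr rfl (fun f _ => by rw [hchord f _ ⟨e.symm s, rfl⟩, one_mul])] at h3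
    exact h3
  · intro h i
    simp only [Matrix.of_apply]
    by_cases hi : ∃ u : Slot d, u.1 = i
    · rw [Finset.sum_congr rfl (fun f _ => by rw [hchord f _ hi, one_mul])]
      exact h
    · push Not at hi
      have h7 : ∀ f, Im (tau e) f i = 0 := by
        intro f
        unfold Im
        rw [if_neg (hi _), if_neg (hi _), add_zero]
      simp [h7]

/-- **The order of a contra pair on a permutation graph is `2` modulo `8`.** -/
theorem perm_mod8 (hp : PermPair G W) (hno : ¬ HasCover G W) : Fintype.card V % 8 = 2 := by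
  classical
  obtain ⟨t, d, e, he⟩ := enum V G W hp.1
  have h1 := twelve (Matrix.of (Bm (tau e))) (Bm_symm (tau e) (tau_tau e) (tau_ne e))
    (fun f => Bm_diag (tau e) (tau_ne e) f) (Matrix.of (Im (tau e)))
    (fun D hD => hno (cover_of_full e hp.1 he.1 D hD))
  have h2 := count_pairs (flowPairs (Matrix.of (Im (tau e)))) (fun q => by
    rw [mem_flowPairs, isFlow_iff_sum e hp he, isFlow_iff_sum e hp he])
  have h3 := mod_four _ _ h2 h1
  have h4 := card_V e hp
  omega

end Pool.Agent.FC
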