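import Pool.Agent.Lib_helper17.FC.Alg

/-!
If no `D` is full, the number of nowhere-zero `Z_2²`-flows is divisible by twelve.
-/

set_option autoImplicit false

namespace Pool.Agent.FC

open Finset Matrix

variable {E T : Type*} [Fintype E] [DecidableEq E] [Fintype T] [DecidableEq T]

/-- The pairs of flows which are nowhere both zero. -/
def flowPairs (I : Matrix E T (ZMod 2)) : Finset ((E → ZMod 2) × (E → ZMod 2)) :=
  Finset.univ.filter (fun q => NZ q.1 q.2 ∧ IsFlow I q.1 ∧ IsFlow I q.2)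

theorem mem_flowPairs (I : Matrix E T (ZMod 2)) (q : (E → ZMod 2) × (E → ZMod 2)) :
    q ∈ flowPairs I ↔ NZ q.1 q.2 ∧ IsFlow I q.1 ∧ IsFlow I q.2 := by
  simp [flowPairs]

theorem isFlow_add (I : Matrix E T (ZMod 2)) (x y : E → ZMod 2) (hx : IsFlow I x)
    (hy : IsFlow I y) : IsFlow I (x + y) := by
  intro t
  have := congrArg₂ (· + ·) (hx t) (hy t)
  simp only [add_zero] at this
  rw [← this, ← Finset.sum_add_distrib]
  exact Finset.sum_congr rfl fun e _ => by rw [Pi.add_apply]; ring

theorem flowPairs_rot (I : Matrix E T (ZMod 2)) (q : (E → ZMod 2) × (E → ZMod 2))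
    (h : q ∈ flowPairs I) : rot3 q ∈ flowPairs I := by
  rw [mem_flowPairs] at h ⊢
  obtain ⟨h1, h2, h3⟩ := h
  refine ⟨?_, h3, isFlow_add I _ _ h2 h3⟩
  intro e
  have h4 := h1 e
  have key : ∀ a b : ZMod 2, (a ≠ 0 ∨ b ≠ 0) → (b ≠ 0 ∨ a + b ≠ 0) := by decide
  exact key _ _ h4

theorem flowPairs_swap (I : Matrix E T (ZMod 2)) (q : (E → ZMod 2) × (E → ZMod 2))
    (h : q ∈ flowPairs I) : q.swap ∈ flowPairs I := by
  rw [mem_flowPairs] at h ⊢
  exact ⟨fun e => (h.1 e).symm, h.2.2, h.2.1⟩

/-- The form. -/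
def hB (B : Matrix E E (ZMod 2)) (x y : E → ZMod 2) : ZMod 2 := ∑ e, x e * ∑ f, B e f * y f

theorem hB_eq (B : Matrix E E (ZMod 2)) (hB0 : ∀ e, B e e = 0) (x y : E → ZMod 2) :
    hB B x y = hexp B x y := by
  unfold hB hexp
  simp [hB0, Matrix.mulVec, dotProduct]

theorem hB_self (B : Matrix E E (ZMod 2)) (hs : B.IsSymm) (hB0 : ∀ e, B e e = 0)
    (x : E → ZMod 2) : hB B x x = 0 := by
  have := quad_diag B hs x
  unfold hB
  simp only [Matrix.mulVec, dotProduct] at this
  rw [this]
  simp [hB0]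

theorem hB_swap (B : Matrix E E (ZMod 2)) (hs : B.IsSymm) (x y : E → ZMod 2) :
    hB B x y = hB B y x := by
  have := sum_symm B hs x y
  unfold hB
  simp only [Matrix.mulVec, dotProduct] at this
  rw [this]
  exact Finset.sum_congr rfl fun e _ => mul_comm _ _

theorem balance_pairs (B : Matrix E E (ZMod 2)) (hs : B.IsSymm) (hB0 : ∀ e, B e e = 0)
    (I : Matrix E T (ZMod 2)) (hno : ∀ D, ¬ Full B I D) :
    ∑ q ∈ flowPairs I, chi (hB B q.1 q.2) = 0 := by
  have h := balance B hs hB0 I hno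
  rw [flowPairs, Finset.sum_filter, ← Finset.univ_product_univ, Finset.sum_product]
  exact h

/-- **Divisibility by twelve.** -/
theorem twelve (B : Matrix E E (ZMod 2)) (hs : B.IsSymm) (hB0 : ∀ e, B e e = 0)
    (I : Matrix E T (ZMod 2)) (hno : ∀ D, ¬ Full B I D) :
    12 ∣ (flowPairs I).card := by
  classical
  set X : Finset ((E → ZMod 2) × (E → ZMod 2)) :=
    (flowPairs I).filter (fun q => hB B q.1 q.2 = 1) with hX
  have h1 := balance_pairs B hs hB0 I hno
  have h2 : ∀ q : (E → ZMod 2) × (E → ZMod 2), chi (hB B q.1 q.2) =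
      1 - 2 * (if hB B q.1 q.2 = 1 then 1 else 0) := by
    intro q
    generalize hB B q.1 q.2 = a
    revert a; decide
  have h3 : ((flowPairs I).card : ℤ) = 2 * (X.card : ℤ) := by
    rw [Finset.sum_congr rfl (fun q _ => h2 q), Finset.sum_sub_distrib, ← Finset.mul_sum,
      Finset.sum_boole] at h1
    simp only [Finset.sum_const, nsmul_eq_mul, mul_one] at h1
    linarith
  have h3' : (flowPairs I).card = 2 * X.card := by exact_mod_cast h3
  have hne : ∀ q ∈ X, q.1 ≠ q.2 := by
    intro q hq h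
    rw [hX, Finset.mem_filter] at hq
    have h5 := hq.2
    rw [h, hB_self B hs hB0] at h5
    exact absurd h5 (by decide)
  -- two divides
  have h4 : 2 ∣ X.card := by
    have h5 : ∑ q ∈ X, (1 : ZMod 2) = 0 := by
      refine Finset.sum_involution (fun q _ => q.swap) ?_ ?_ ?_ ?_
      · intro q _; decide
      · intro q hq _ h
        exact hne q hq (congrArg Prod.snd h)
      · intro q hq
        rw [hX, Finset.mem_filter] at hq ⊢
        refine ⟨flowPairs_swap I q hq.1, ?_⟩
        rw [← hq.2]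
        exact (hB_swap B hs _ _)
      · intro q _; exact Prod.swap_swap q
    rw [Finset.sum_const, nsmul_eq_mul, mul_one] at h5
    exact (ZMod.natCast_eq_zero_iff _ _).1 h5
  -- three divides
  have h5 : 3 ∣ X.card := by
    have hrot : ∀ q, hB B (rot3 q).1 (rot3 q).2 = hB B q.1 q.2 := by
      intro q
      rw [hB_eq B hB0, hB_eq B hB0, hexp_rot3 B hs]
    have hmem : ∀ q, q ∈ X → rot3 q ∈ X := by
      intro q hq
      rw [hX, Finset.mem_filter] at hq ⊢
      exact ⟨flowPairs_rot I q hq.1, by rw [hrot, hq.2]⟩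
    let σ : Function.End X := fun q => ⟨rot3 q.1, (hmem q.1) q.2⟩
    have hσ3 : σ ^ 3 ^ 1 = 1 := by
      funext q
      obtain ⟨q, hq⟩ := q
      have : (σ ^ 3 ^ 1) ⟨q, hq⟩ = σ (σ (σ ⟨q, hq⟩)) := rfl
      rw [this]
      refine Subtype.ext ?_
      show rot3 (rot3 (rot3 q)) = q
      simp only [rot3, Equiv.coe_fn_mk]
      refine Prod.ext ?_ ?_
      · funext i
        have : ∀ a b : ZMod 2, b + (a + b) = a := by decide
        exact this _ _
      · funext i
        have : ∀ a b : ZMod 2, a + b + (b + (a + b)) = b := by decide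
        exact this _ _
    have : Fact (Nat.Prime 3) := ⟨by norm_num⟩
    have hfix := Equiv.Perm.card_fixedPoints_modEq (p := 3) (n := 1) (f := σ) hσ3
    have hnofix : Fintype.card (Function.fixedPoints σ) = 0 := by
      rw [Fintype.card_eq_zero_iff]
      constructor
      rintro ⟨⟨q, hq⟩, hf⟩
      have hf' : rot3 q = q := congrArg Subtype.val hf
      refine hne q hq ?_
      have e1 := congrArg Prod.fst hf'
      simpa only [rot3, Equiv.coe_fn_mk] using e1.symm
    rw [hnofix] at hfix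
    have h6 : Fintype.card X = X.card := Fintype.card_coe X
    rw [h6] at hfix
    exact (Nat.modEq_zero_iff_dvd).1 hfix
  rw [h3']
  omega

end Pool.Agent.FC
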